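import Pool.Agent.Lib.MP_87c4bd_co.Mixture

set_option autoImplicit false

open MeasureTheory Filter Topology Set
open scoped ENNReal

namespace Pool.Agent.Lib.MP_87c4bd_co

universe u

variable {Ω : Type u} [MeasurableSpace Ω]

/-- The geometric distribution `k ↦ 2^{-(k+1)}` on the natural numbers. -/
noncomputable def geo : PMF ℕ := ⟨fun k => (2 : ℝ≥0∞)⁻¹ ^ (k + 1), by
  have h : ∑' k : ℕ, (2 : ℝ≥0∞)⁻¹ ^ (k + 1) = 1 := by
    simp only [pow_succ]
    rw [ENNReal.tsum_mul_right, ENNReal.tsum_geometric, ENNReal.one_sub_inv_two, inv_inv]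
    exact ENNReal.mul_inv_cancel (by norm_num) (by norm_num)
  rw [← h]
  exact ENNReal.summable.hasSum⟩

theorem geo_apply (k : ℕ) : geo k = (2 : ℝ≥0∞)⁻¹ ^ (k + 1) := rfl

theorem nlog_pow {t : ℝ≥0∞} (ht : t ≤ 1) (n : ℕ) : nlog (t ^ n) = n * nlog t := by
  induction n with
  | zero => simp [nlog_one]
  | succ n ih =>
    rw [pow_succ, nlog_mul (pow_le_one' ht n) ht, ih]
    push_cast
    ring

theorem nlog_half_ne_zero : nlog (2 : ℝ≥0∞)⁻¹ ≠ 0 := by
  rw [nlog_inv, EReal.toENNReal_ne_zero_iff, ENNReal.zero_lt_log_iff]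
  norm_num

theorem nlog_half_ne_top : nlog (2 : ℝ≥0∞)⁻¹ ≠ ⊤ := by
  rw [Ne, nlog_eq_top_iff]
  simp

/-- The limit step, first part: a mixture of finite logarithmic cost. -/
theorem exists_finite (π : Measure Ω) [IsProbabilityMeasure π] {I : Set (Set Ω)}
    (hI : ∀ J ∈ I, MeasurableSet J) {F : Ω → ℝ≥0∞} (hFm : Measurable F)
    (hF : ∫⁻ x, nlog (F x) ∂π ≠ ⊤) (p : ℕ → PMF I)
    (hp : ∀ᵐ x ∂π, Tendsto (fun n => bP (p n) x) atTop (𝓝 (F x))) :
    ∃ q : PMF I, phi π (bP q) ≠ ⊤ := by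
  -- `F` is positive and finite almost everywhere
  have hF0 : ∀ᵐ x ∂π, F x ≠ 0 := by
    have := ae_lt_top' (measurable_nlog.comp hFm).aemeasurable hF
    filter_upwards [this] with x hx h0
    rw [Function.comp_apply, h0, nlog_zero] at hx
    exact absurd hx (lt_irrefl _)
  have hF1 : ∀ᵐ x ∂π, F x ≤ 1 := by
    filter_upwards [hp] with x hx
    exact le_of_tendsto' hx (fun n => bP_le_one _ x)
  let T : ℕ → Set Ω := fun n => {x | F x ≤ 2 * bP (p n) x}
  have hTm : ∀ n, MeasurableSet (T n) := fun n =>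
    measurableSet_le hFm ((measurable_bP hI (p n)).const_mul 2)
  have hT : Tendsto (fun n => π (T n)ᶜ) atTop (𝓝 0) := by
    have h1 : ∀ n, π (T n)ᶜ = ∫⁻ x, (T n)ᶜ.indicator 1 x ∂π := fun n =>
      (lintegral_indicator_one (hTm n).compl).symm
    simp only [h1]
    have h2 : (0 : ℝ≥0∞) = ∫⁻ _, 0 ∂π := by simp
    rw [h2]
    refine tendsto_lintegral_of_dominated_convergence (fun _ => 1)
      (fun n => measurable_one.indicator (hTm n).compl) (fun n => ae_of_all _ (fun x => ?_))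
      (by simp) ?_
    · exact indicator_one_le _ _
    · filter_upwards [hp, hF0, hF1] with x hx hx0 hx1
      refine tendsto_const_nhds.congr' ?_
      have hlt : F x < 2 * F x := by
        rw [two_mul]
        exact ENNReal.lt_add_right (ne_top_of_le_ne_top ENNReal.one_ne_top hx1) hx0
      have h3 : Tendsto (fun n => 2 * bP (p n) x) atTop (𝓝 (2 * F x)) :=
        ENNReal.Tendsto.const_mul hx (Or.inr (by norm_num))
      filter_upwards [h3.eventually (lt_mem_nhds hlt)] with n hn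
      rw [indicator_of_notMem]
      intro hmem
      exact hmem hn.le
  -- a fast subsequence
  have hsub : ∀ k : ℕ, ∃ n, π (T n)ᶜ ≤ (2 : ℝ≥0∞)⁻¹ ^ k := by
    intro k
    have hpos : (0 : ℝ≥0∞) < (2 : ℝ≥0∞)⁻¹ ^ k := by
      rw [pos_iff_ne_zero]
      exact pow_ne_zero _ (by simp)
    obtain ⟨n, hn⟩ := (hT.eventually (gt_mem_nhds hpos)).exists
    exact ⟨n, hn.le⟩
  choose N hN using hsub
  refine ⟨geo.bind (fun k => p (N k)), ?_⟩
  set L := nlog (2 : ℝ≥0∞)⁻¹ with hL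
  have hb : ∀ x, bP (geo.bind (fun k => p (N k))) x = ∑' k, (2 : ℝ≥0∞)⁻¹ ^ (k + 1) * bP (p (N k)) x :=
    fun x => by rw [bP_bind]; rfl
  have hpt : ∀ᵐ x ∂π, nlog (bP (geo.bind (fun k => p (N k))) x) ≤
      nlog (F x) + 2 * L + L * ∑' k, (T (N k))ᶜ.indicator 1 x := by
    filter_upwards [hF1] with x hx1
    by_cases hex : ∃ k, x ∈ T (N k)
    · classical
      set k0 := Nat.find hex with hk0
      have hk : x ∈ T (N k0) := Nat.find_spec hex
      have h1 : (2 : ℝ≥0∞)⁻¹ ^ (k0 + 2) * F x ≤ bP (geo.bind (fun k => p (N k))) x := by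
        rw [hb]
        calc (2 : ℝ≥0∞)⁻¹ ^ (k0 + 2) * F x
            ≤ (2 : ℝ≥0∞)⁻¹ ^ (k0 + 2) * (2 * bP (p (N k0)) x) := mul_le_mul_right hk _
          _ = (2 : ℝ≥0∞)⁻¹ ^ (k0 + 1) * bP (p (N k0)) x := by
              rw [← mul_assoc]
              congr 1
              rw [pow_succ (2 : ℝ≥0∞)⁻¹ (k0 + 1), mul_assoc,
                ENNReal.inv_mul_cancel (by norm_num) (by norm_num), mul_one]
          _ ≤ _ := ENNReal.le_tsum (f := fun k => (2 : ℝ≥0∞)⁻¹ ^ (k + 1) * bP (p (N k)) x) k0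
      have h2 : (k0 : ℝ≥0∞) ≤ ∑' k, (T (N k))ᶜ.indicator (1 : Ω → ℝ≥0∞) x := by
        calc (k0 : ℝ≥0∞) = ∑ k ∈ Finset.range k0, (1 : ℝ≥0∞) := by simp
          _ = ∑ k ∈ Finset.range k0, (T (N k))ᶜ.indicator (1 : Ω → ℝ≥0∞) x := by
              refine Finset.sum_congr rfl (fun k hk => ?_)
              rw [indicator_of_mem]
              · rfl
              · exact Nat.find_min hex (Finset.mem_range.mp hk)
          _ ≤ _ := ENNReal.sum_le_tsum _
      calc nlog (bP (geo.bind (fun k => p (N k))) x)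
          ≤ nlog ((2 : ℝ≥0∞)⁻¹ ^ (k0 + 2) * F x) := nlog_anti h1
        _ = (k0 + 2 : ℕ) * L + nlog (F x) := by
            rw [nlog_mul (pow_le_one' (by norm_num) _) hx1, nlog_pow (by norm_num)]
        _ = nlog (F x) + 2 * L + L * k0 := by push_cast; ring
        _ ≤ _ := by gcongr
    · push Not at hex
      have h3 : ∑' k, (T (N k))ᶜ.indicator (1 : Ω → ℝ≥0∞) x = ⊤ := by
        have : ∀ k, (T (N k))ᶜ.indicator (1 : Ω → ℝ≥0∞) x = 1 := by
          intro k
          rw [indicator_of_mem (hex k)]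
          rfl
        simp only [this]
        exact ENNReal.tsum_const_eq_top_of_ne_zero one_ne_zero
      rw [h3, ENNReal.mul_top nlog_half_ne_zero, add_top]
      exact le_top
  refine ne_top_of_le_ne_top ?_ (lintegral_mono_ae hpt)
  have hm1 : Measurable fun x => nlog (F x) := measurable_nlog.comp hFm
  rw [lintegral_add_left (hm1.add_const _), lintegral_add_left hm1, lintegral_const, measure_univ,
    mul_one]
  have hind : ∀ k, Measurable ((T (N k))ᶜ.indicator (1 : Ω → ℝ≥0∞)) := fun k =>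
    measurable_one.indicator (hTm (N k)).compl
  rw [lintegral_const_mul _ (Measurable.ennreal_tsum hind), lintegral_tsum (fun k => (hind k).aemeasurable)]
  have h4 : ∑' k, ∫⁻ x, (T (N k))ᶜ.indicator (1 : Ω → ℝ≥0∞) x ∂π ≤ 2 := by
    calc ∑' k, ∫⁻ x, (T (N k))ᶜ.indicator (1 : Ω → ℝ≥0∞) x ∂π
        = ∑' k, π (T (N k))ᶜ := tsum_congr (fun k => lintegral_indicator_one (hTm (N k)).compl)
      _ ≤ ∑' k : ℕ, (2 : ℝ≥0∞)⁻¹ ^ k := ENNReal.tsum_le_tsum hN
      _ = 2 := by rw [ENNReal.tsum_geometric, ENNReal.one_sub_inv_two, inv_inv]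
  refine ENNReal.add_ne_top.mpr ⟨ENNReal.add_ne_top.mpr ⟨hF, ?_⟩, ?_⟩
  · exact ENNReal.mul_ne_top (by norm_num) nlog_half_ne_top
  · exact ENNReal.mul_ne_top nlog_half_ne_top (ne_top_of_le_ne_top (by norm_num) h4)

end Pool.Agent.Lib.MP_87c4bd_co
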