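import Pool.Agent.Lib.MP_87c4bd_co.Approx

set_option autoImplicit false

open MeasureTheory Filter Topology Set
open scoped ENNReal

namespace Pool.Agent.Lib.MP_87c4bd_co

universe u

variable {Ω : Type u} [MeasurableSpace Ω]

theorem exists_theta {ε : ℝ≥0∞} (hε : ε ≠ 0) :
    ∃ θ : ℝ, 0 < θ ∧ θ < 1 ∧ nlog (ENNReal.ofReal (1 - θ)) < ε := by
  have h1 : Tendsto (fun θ : ℝ => nlog (ENNReal.ofReal (1 - θ))) (𝓝[>] 0) (𝓝 0) := by
    have h2 : Continuous fun θ : ℝ => nlog (ENNReal.ofReal (1 - θ)) :=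
      continuous_nlog.comp (ENNReal.continuous_ofReal.comp (by fun_prop))
    have h3 := h2.tendsto 0
    simp only [sub_zero, ENNReal.ofReal_one, nlog_one] at h3
    exact h3.mono_left nhdsWithin_le_nhds
  have h4 := h1.eventually (gt_mem_nhds (pos_iff_ne_zero.mpr hε))
  have h5 : ∀ᶠ θ : ℝ in 𝓝[>] 0, θ ∈ Ioo (0 : ℝ) 1 := Ioo_mem_nhdsGT one_pos
  obtain ⟨θ, h6, h7⟩ := (h4.and h5).exists
  exact ⟨θ, h7.1, h7.2, h6⟩

/-- The limit step: countable mixtures of cost at most the cost of the limit plus `ε`. -/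
theorem exists_mixture (π : Measure Ω) [IsProbabilityMeasure π] {I : Set (Set Ω)}
    (hI : ∀ J ∈ I, MeasurableSet J) {F : Ω → ℝ≥0∞} (hFm : Measurable F)
    (hF : ∫⁻ x, nlog (F x) ∂π ≠ ⊤) (p : ℕ → PMF I)
    (hp : ∀ᵐ x ∂π, Tendsto (fun n => bP (p n) x) atTop (𝓝 (F x))) {ε : ℝ≥0∞} (hε : ε ≠ 0) :
    ∃ q : PMF I, phi π (bP q) ≤ ∫⁻ x, nlog (F x) ∂π + ε := by
  obtain ⟨q0, hq0⟩ := exists_finite π hI hFm hF p hp
  obtain ⟨θ, hθ0, hθ1, hθ⟩ := exists_theta hε
  have hF1 : ∀ᵐ x ∂π, F x ≤ 1 := by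
    filter_upwards [hp] with x hx
    exact le_of_tendsto' hx (fun n => bP_le_one _ x)
  have hs := fun n => exists_two (p n) q0 (sub_nonneg.mpr hθ1.le) hθ0.le (by ring : (1 - θ) + θ = 1)
  choose s hs using hs
  set α := ENNReal.ofReal (1 - θ) with hα
  set β := ENNReal.ofReal θ with hβ
  have hα1 : α ≤ 1 := by
    rw [hα, ENNReal.ofReal_le_one]
    linarith
  have hβ1 : β ≤ 1 := by
    rw [hβ, ENNReal.ofReal_le_one]
    exact hθ1.le
  have hβ0 : β ≠ 0 := by
    rw [hβ]
    simpa using hθ0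
  have hlim : Tendsto (fun n => ∫⁻ x, nlog (bP (s n) x) ∂π) atTop
      (𝓝 (∫⁻ x, nlog (α * F x + β * bP q0 x) ∂π)) := by
    refine tendsto_lintegral_of_dominated_convergence (fun x => nlog β + nlog (bP q0 x))
      (fun n => measurable_nlog.comp (measurable_bP hI (s n))) (fun n => ae_of_all _ (fun x => ?_))
      ?_ ?_
    · beta_reduce
      rw [← nlog_mul hβ1 (bP_le_one q0 x)]
      apply nlog_anti
      rw [hs]
      exact le_add_self
    · have hm : Measurable fun x => nlog (bP q0 x) := measurable_nlog.comp (measurable_bP hI q0)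
      rw [lintegral_add_left measurable_const, lintegral_const, measure_univ, mul_one]
      refine ENNReal.add_ne_top.mpr ⟨?_, hq0⟩
      rw [Ne, nlog_eq_top_iff]
      exact hβ0
    · filter_upwards [hp] with x hx
      refine (continuous_nlog.tendsto _).comp ?_
      simp only [hs]
      refine Tendsto.add_const _ ?_
      exact ENNReal.Tendsto.const_mul hx (Or.inr (ne_top_of_le_ne_top ENNReal.one_ne_top hα1))
  have hle : ∫⁻ x, nlog (α * F x + β * bP q0 x) ∂π ≤ nlog α + ∫⁻ x, nlog (F x) ∂π := by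
    have hm : Measurable fun x => nlog (F x) := measurable_nlog.comp hFm
    calc ∫⁻ x, nlog (α * F x + β * bP q0 x) ∂π
        ≤ ∫⁻ x, (nlog α + nlog (F x)) ∂π := by
          refine lintegral_mono_ae ?_
          filter_upwards [hF1] with x hx1
          rw [← nlog_mul hα1 hx1]
          exact nlog_anti le_self_add
      _ = nlog α + ∫⁻ x, nlog (F x) ∂π := by
          rw [lintegral_add_left measurable_const, lintegral_const, measure_univ, mul_one]
  have hlt : ∫⁻ x, nlog (α * F x + β * bP q0 x) ∂π < ∫⁻ x, nlog (F x) ∂π + ε := by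
    refine hle.trans_lt ?_
    rw [add_comm]
    exact ENNReal.add_lt_add_left hF hθ
  obtain ⟨n, hn⟩ := (hlim.eventually (gt_mem_nhds hlt)).exists
  exact ⟨s n, hn.le⟩

/-- Every member of the closed convex hull is approximated in cost by countable mixtures. -/
theorem exists_of_hull (π : Measure Ω) [IsProbabilityMeasure π] {I : Set (Set Ω)}
    (hI : ∀ J ∈ I, MeasurableSet J) {f : Lp ℝ 2 π} (hf : f ∈ hull π I)
    (hfin : ∫⁻ x, nlog (ENNReal.ofReal (f x)) ∂π ≠ ⊤) {ε : ℝ≥0∞} (hε : ε ≠ 0) :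
    ∃ q : PMF I, phi π (bP q) ≤ ∫⁻ x, nlog (ENNReal.ofReal (f x)) ∂π + ε := by
  rw [hull, mem_closure_iff_seq_limit] at hf
  obtain ⟨v, hv, hvf⟩ := hf
  have h1 : TendstoInMeasure π (fun n => (v n : Ω → ℝ)) atTop f := tendstoInMeasure_of_tendsto_Lp hvf
  obtain ⟨ns, hns, hlim⟩ := h1.exists_seq_tendsto_ae
  have h2 := fun n => hull_bP π (v (ns n)) (hv (ns n))
  choose p hp using h2
  refine exists_mixture π hI (F := fun x => ENNReal.ofReal (f x)) ?_ hfin p ?_ hε
  · exact (Lp.stronglyMeasurable f).measurable.ennreal_ofReal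
  · filter_upwards [hlim, ae_all_iff.mpr hp] with x hx1 hx2
    have h3 : ∀ n, bP (p n) x = ENNReal.ofReal (v (ns n) x) := by
      intro n
      rw [hx2 n, ENNReal.ofReal_toReal]
      exact ne_top_of_le_ne_top ENNReal.one_ne_top (bP_le_one _ x)
    simp only [h3]
    exact (ENNReal.continuous_ofReal.tendsto _).comp hx1

end Pool.Agent.Lib.MP_87c4bd_co
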