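import Pool.Agent.Lib.MP_87c4bd_co.Lower

set_option autoImplicit false

open MeasureTheory Filter Topology Set
open scoped ENNReal

namespace Pool.Agent.Lib.MP_87c4bd_co

universe u

variable {Ω : Type u} [MeasurableSpace Ω]

/-- Chebyshev estimate for a `[0,1]`-valued function of small variance. -/
theorem cheb (π : Measure Ω) [IsProbabilityMeasure π] {q : Ω → ℝ} (hq : Measurable q)
    (h0 : ∀ x, 0 ≤ q x) (h1 : ∀ x, q x ≤ 1) {V δ : ℝ} (hδ : 0 < δ)
    (hm : 0 < ∫ x, q x ∂π) (hV : ∫ x, (q x) ^ 2 ∂π ≤ (∫ x, q x ∂π) ^ 2 + V) :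
    π {x | q x < (1 - δ) * ∫ x, q x ∂π} ≤ ENNReal.ofReal (V / (δ * ∫ x, q x ∂π) ^ 2) := by
  set m := ∫ x, q x ∂π with hmdef
  have hint : Integrable q π := by
    refine Integrable.of_bound hq.aestronglyMeasurable 1 (ae_of_all _ (fun x => ?_))
    rw [Real.norm_eq_abs, abs_of_nonneg (h0 x)]
    exact h1 x
  have hint2 : Integrable (fun x => (q x) ^ 2) π := by
    refine Integrable.of_bound (hq.pow_const 2).aestronglyMeasurable 1 (ae_of_all _ (fun x => ?_))
    rw [Real.norm_eq_abs, abs_of_nonneg (by positivity)]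
    exact pow_le_one₀ (h0 x) (h1 x)
  have i1 : Integrable (fun x => (2 * m) * q x) π := hint.const_mul _
  have i2 : Integrable (fun x => (q x) ^ 2 - (2 * m) * q x) π := hint2.sub i1
  have hvar : ∫ x, (q x - m) ^ 2 ∂π ≤ V := by
    have e : ∀ x, (q x - m) ^ 2 = (q x) ^ 2 - (2 * m) * q x + m ^ 2 := fun x => by ring
    simp only [e]
    rw [integral_add i2 (integrable_const _), integral_sub hint2 i1, integral_const_mul,
      integral_const]
    simp only [probReal_univ, smul_eq_mul, one_mul]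
    rw [← hmdef]
    nlinarith
  have hpos : 0 < (δ * m) ^ 2 := by positivity
  have hsub : {x | q x < (1 - δ) * m} ⊆ {x | (δ * m) ^ 2 ≤ (q x - m) ^ 2} := by
    intro x hx
    simp only [mem_ofPred_eq] at hx ⊢
    have h2 : q x - m ≤ -(δ * m) := by nlinarith
    nlinarith [mul_pos hδ hm]
  refine (measure_mono hsub).trans ?_
  have hmk := mul_meas_ge_le_integral_of_nonneg (μ := π) (f := fun x => (q x - m) ^ 2)
    (ae_of_all _ (fun x => sq_nonneg _))
    (by
      have e : ∀ x, (q x - m) ^ 2 = (q x) ^ 2 - (2 * m) * q x + m ^ 2 := fun x => by ring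
      simp only [e]
      exact i2.add (integrable_const _)) ((δ * m) ^ 2)
  have h3 : π.real {x | (δ * m) ^ 2 ≤ (q x - m) ^ 2} ≤ V / (δ * m) ^ 2 := by
    rw [le_div_iff₀ hpos, mul_comm]
    exact hmk.trans hvar
  rw [← ofReal_measureReal]
  exact ENNReal.ofReal_le_ofReal h3

/-- From the failure of the single-letter inequality for all `D` we get finite mixtures that are
cheap outside a small set. -/
theorem good_set (π : Measure Ω) [IsProbabilityMeasure π] {I : Set (Set Ω)}
    (hI : ∀ J ∈ I, MeasurableSet J) {C η : ℝ≥0∞} (hCt : C ≠ ⊤) (hη0 : η ≠ 0) (hηt : η ≠ ⊤)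
    (hnot : ∀ D : ℝ≥0∞, D ≠ ⊤ → ¬ Cond π I C D η) {C' : ℝ≥0∞} (hCC' : C < C') {ε : ℝ≥0∞}
    (hε : ε ≠ 0) :
    ∃ (n : ℕ) (r : Fin n → ℝ≥0∞) (J : Fin n → Set Ω) (G : Set Ω), (∀ z, J z ∈ I) ∧
      ∑ z, r z = 1 ∧ MeasurableSet G ∧ π Gᶜ ≤ ε ∧ ∫⁻ x in G, nlog (mix r J x) ∂π ≤ C' := by
  -- choose `δ`
  obtain ⟨δ, hδ0, hδ1, hδC⟩ : ∃ δ : ℝ, 0 < δ ∧ δ < 1 ∧ C ≤ ENNReal.ofReal (1 - δ) * C' := by
    by_cases hC' : C' = ⊤
    · refine ⟨1 / 2, by norm_num, by norm_num, ?_⟩
      rw [hC', ENNReal.mul_top]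
      · exact le_top
      · rw [Ne, ENNReal.ofReal_eq_zero]; norm_num
    · have h1 : C.toReal < C'.toReal := (ENNReal.toReal_lt_toReal hCt hC').mpr hCC'
      have h0 : 0 ≤ C.toReal := ENNReal.toReal_nonneg
      have hpos : 0 < C'.toReal := lt_of_le_of_lt h0 h1
      refine ⟨(C'.toReal - C.toReal) / (2 * C'.toReal), ?_, ?_, ?_⟩
      · apply div_pos <;> linarith
      · rw [div_lt_one (by linarith)]; linarith
      · rw [← ENNReal.ofReal_toReal hCt, ← ENNReal.ofReal_toReal hC']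
        rw [← ENNReal.ofReal_mul]
        · apply ENNReal.ofReal_le_ofReal
          rw [ENNReal.toReal_ofReal h0, ENNReal.toReal_ofReal hpos.le]
          field_simp
          linarith
        · rw [ENNReal.toReal_ofReal h0, ENNReal.toReal_ofReal hpos.le]
          rw [sub_nonneg, div_le_one (by linarith)]
          linarith
  -- a positive real number below `ε`
  obtain ⟨ε0, hε0, hε0'⟩ : ∃ ε0 : ℝ, 0 < ε0 ∧ ENNReal.ofReal ε0 ≤ ε := by
    refine ⟨(min ε 1).toReal, ?_, ?_⟩
    · apply ENNReal.toReal_pos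
      · simp [hε]
      · exact ne_top_of_le_ne_top ENNReal.one_ne_top (min_le_right _ _)
    · rw [ENNReal.ofReal_toReal (ne_top_of_le_ne_top ENNReal.one_ne_top (min_le_right _ _))]
      exact min_le_left _ _
  have hηr : 0 < η.toReal := ENNReal.toReal_pos hη0 hηt
  set c := C.toReal with hc
  have hc0 : 0 ≤ c := ENNReal.toReal_nonneg
  set K := c / ((δ * η.toReal) ^ 2 * ε0) + 1 with hK
  have hKpos : 0 < K := by positivity
  have hD := hnot (ENNReal.ofReal K) ENNReal.ofReal_ne_top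
  unfold Cond at hD
  push Not at hD
  obtain ⟨n, r, J, q, hJ, hr, hqm, hq1, hlt⟩ := hD
  set m := ∫⁻ x, q x ∂π with hm
  set Q := ∫⁻ x, (q x) ^ 2 ∂π with hQ
  set A := ∫⁻ x, q x * nlog (mix r J x) ∂π with hA
  have hqt : ∀ x, q x ≠ ⊤ := fun x => ne_top_of_le_ne_top ENNReal.one_ne_top (hq1 x)
  have hm1 : m ≤ 1 := by
    calc m ≤ ∫⁻ _, 1 ∂π := lintegral_mono hq1
      _ = 1 := by simp
  have hmt : m ≠ ⊤ := ne_top_of_le_ne_top ENNReal.one_ne_top hm1
  have hQ1 : Q ≤ 1 := by
    calc Q ≤ ∫⁻ _, 1 ∂π := lintegral_mono (fun x => pow_le_one' (hq1 x) 2)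
      _ = 1 := by simp
  have hQt : Q ≠ ⊤ := ne_top_of_le_ne_top ENNReal.one_ne_top hQ1
  have hRt : C * m + ENNReal.ofReal K * m ^ 2 ≠ ⊤ :=
    ENNReal.add_ne_top.mpr ⟨ENNReal.mul_ne_top hCt hmt,
      ENNReal.mul_ne_top ENNReal.ofReal_ne_top (ENNReal.pow_ne_top hmt)⟩
  have hLt : A + C * η + ENNReal.ofReal K * Q ≠ ⊤ := (hlt.trans_le le_top).ne
  have hAt : A ≠ ⊤ := (ENNReal.add_ne_top.mp (ENNReal.add_ne_top.mp hLt).1).1
  -- real versions
  let qr : Ω → ℝ := fun x => (q x).toReal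
  have hqrm : Measurable qr := hqm.ennreal_toReal
  have hqr0 : ∀ x, 0 ≤ qr x := fun x => ENNReal.toReal_nonneg
  have hqr1 : ∀ x, qr x ≤ 1 := by
    intro x
    have := ENNReal.toReal_mono ENNReal.one_ne_top (hq1 x)
    simpa using this
  have hmr : ∫ x, qr x ∂π = m.toReal := by
    rw [hm, integral_toReal hqm.aemeasurable (ae_of_all _ (fun x => (hqt x).lt_top))]
  have hQr : ∫ x, (qr x) ^ 2 ∂π = Q.toReal := by
    rw [hQ, ← integral_toReal (hqm.pow_const 2).aemeasurable
      (ae_of_all _ (fun x => (ENNReal.pow_ne_top (hqt x)).lt_top))]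
    simp [qr]
  have hlr : A.toReal + c * η.toReal + K * Q.toReal < c * m.toReal + K * m.toReal ^ 2 := by
    have := (ENNReal.toReal_lt_toReal hLt hRt).mpr hlt
    rw [ENNReal.toReal_add (ENNReal.add_ne_top.mp hLt).1 (ENNReal.add_ne_top.mp hLt).2,
      ENNReal.toReal_add hAt (ENNReal.mul_ne_top hCt hηt),
      ENNReal.toReal_add (ENNReal.add_ne_top.mp hRt).1 (ENNReal.add_ne_top.mp hRt).2] at this
    simpa [ENNReal.toReal_mul, ENNReal.toReal_ofReal hKpos.le, hc] using this
  have hmr1 : m.toReal ≤ 1 := by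
    have := ENNReal.toReal_mono ENNReal.one_ne_top hm1
    simpa using this
  have hA0 : 0 ≤ A.toReal := ENNReal.toReal_nonneg
  have hm0 : 0 ≤ m.toReal := ENNReal.toReal_nonneg
  have hjen : m.toReal ^ 2 ≤ Q.toReal := by
    have hint : Integrable qr π := by
      refine Integrable.of_bound hqrm.aestronglyMeasurable 1 (ae_of_all _ (fun x => ?_))
      rw [Real.norm_eq_abs, abs_of_nonneg (hqr0 x)]
      exact hqr1 x
    have hint2 : Integrable (fun x => (qr x) ^ 2) π := by
      refine Integrable.of_bound (hqrm.pow_const 2).aestronglyMeasurable 1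
        (ae_of_all _ (fun x => ?_))
      rw [Real.norm_eq_abs, abs_of_nonneg (by positivity)]
      exact pow_le_one₀ (hqr0 x) (hqr1 x)
    have i1 : Integrable (fun x => (2 * m.toReal) * qr x) π := hint.const_mul _
    have i2 : Integrable (fun x => (qr x) ^ 2 - (2 * m.toReal) * qr x) π := hint2.sub i1
    have h2 : 0 ≤ ∫ x, (qr x - m.toReal) ^ 2 ∂π := integral_nonneg (fun x => sq_nonneg _)
    have e : ∀ x, (qr x - m.toReal) ^ 2 = (qr x) ^ 2 - (2 * m.toReal) * qr x + m.toReal ^ 2 :=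
      fun x => by ring
    simp only [e] at h2
    rw [integral_add i2 (integrable_const _), integral_sub hint2 i1, integral_const_mul,
      integral_const, hmr, hQr] at h2
    simp only [probReal_univ, smul_eq_mul, one_mul] at h2
    nlinarith
  have hηm : η.toReal < m.toReal := by
    by_contra hcon
    push Not at hcon
    have := mul_le_mul_of_nonneg_left hcon hc0
    have h3 := mul_le_mul_of_nonneg_left hjen hKpos.le
    linarith
  have hmpos : 0 < m.toReal := hηr.trans hηm
  have hV : ∫ x, (qr x) ^ 2 ∂π ≤ (∫ x, qr x ∂π) ^ 2 + c / K := by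
    rw [hmr, hQr]
    have h3 : K * Q.toReal ≤ K * (m.toReal ^ 2 + c / K) := by
      have : K * (c / K) = c := by field_simp
      rw [mul_add, this]
      have h4 : c * m.toReal ≤ c := by nlinarith
      have h5 : 0 ≤ c * η.toReal := by positivity
      linarith
    exact le_of_mul_le_mul_left h3 hKpos
  have hcheb := cheb π hqrm hqr0 hqr1 hδ0 (by rw [hmr]; exact hmpos) hV
  rw [hmr] at hcheb
  refine ⟨n, r, J, {x | (1 - δ) * m.toReal ≤ qr x}, hJ, hr, measurableSet_le measurable_const hqrm,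
    ?_, ?_⟩
  · have hcompl : {x | (1 - δ) * m.toReal ≤ qr x}ᶜ = {x | qr x < (1 - δ) * m.toReal} := by
      ext x
      simp
    rw [hcompl]
    refine hcheb.trans (le_trans (ENNReal.ofReal_le_ofReal ?_) hε0')
    have h6 : (δ * η.toReal) ^ 2 ≤ (δ * m.toReal) ^ 2 := by
      apply pow_le_pow_left₀ (by positivity)
      exact mul_le_mul_of_nonneg_left hηm.le hδ0.le
    rw [div_le_iff₀ (by positivity), div_le_iff₀ hKpos]
    have h7 : c ≤ ε0 * (δ * η.toReal) ^ 2 * K := by
      rw [hK, mul_add, mul_one]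
      have : ε0 * (δ * η.toReal) ^ 2 * (c / ((δ * η.toReal) ^ 2 * ε0)) = c := by
        field_simp
      rw [this]
      have : 0 ≤ ε0 * (δ * η.toReal) ^ 2 := by positivity
      linarith
    refine h7.trans ?_
    gcongr
  · set X := ∫⁻ x in {x | (1 - δ) * m.toReal ≤ qr x}, nlog (mix r J x) ∂π with hX
    have h8 : ENNReal.ofReal ((1 - δ) * m.toReal) * X ≤ A := by
      have hnm : Measurable (fun x => nlog (mix r J x)) :=
        measurable_nlog.comp (measurable_mix r (fun z => hI _ (hJ z)))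
      rw [hX, ← lintegral_const_mul _ hnm]
      calc ∫⁻ x in {x | (1 - δ) * m.toReal ≤ qr x},
            ENNReal.ofReal ((1 - δ) * m.toReal) * nlog (mix r J x) ∂π
          ≤ ∫⁻ x in {x | (1 - δ) * m.toReal ≤ qr x}, q x * nlog (mix r J x) ∂π := by
            refine setLIntegral_mono' (measurableSet_le measurable_const hqrm) (fun x hx => ?_)
            refine mul_le_mul_left ?_ _
            have : ENNReal.ofReal (qr x) = q x := ENNReal.ofReal_toReal (hqt x)
            rw [← this]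
            exact ENNReal.ofReal_le_ofReal hx
        _ ≤ A := setLIntegral_le_lintegral _ _
    have h9 : A ≤ C * m := by
      have : A.toReal ≤ (C * m).toReal := by
        rw [ENNReal.toReal_mul]
        have h3 := mul_le_mul_of_nonneg_left hjen hKpos.le
        have h5 : 0 ≤ c * η.toReal := by positivity
        linarith
      exact (ENNReal.toReal_le_toReal hAt (ENNReal.mul_ne_top hCt hmt)).mp this
    have h10 : ENNReal.ofReal (1 - δ) * X * m ≤ ENNReal.ofReal (1 - δ) * C' * m := by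
      calc ENNReal.ofReal (1 - δ) * X * m
          = ENNReal.ofReal ((1 - δ) * m.toReal) * X := by
            rw [ENNReal.ofReal_mul (by linarith), ENNReal.ofReal_toReal hmt]
            ring
        _ ≤ C * m := h8.trans h9
        _ ≤ ENNReal.ofReal (1 - δ) * C' * m := by gcongr
    have hmne : m ≠ 0 := by
      intro h
      rw [h] at hmpos
      simp at hmpos
    have h11 : ENNReal.ofReal (1 - δ) * X ≤ ENNReal.ofReal (1 - δ) * C' :=
      (ENNReal.mul_le_mul_iff_left hmne hmt).mp h10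
    exact (ENNReal.mul_le_mul_iff_right (by
      rw [Ne, ENNReal.ofReal_eq_zero]; linarith) ENNReal.ofReal_ne_top).mp h11

end Pool.Agent.Lib.MP_87c4bd_co
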