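import Pool.Agent.Lib.MP_87c4bd_co.Approx2
import Pool.Agent.Lib.MP_87c4bd_co.Good

set_option autoImplicit false

open MeasureTheory Filter Topology Set
open scoped ENNReal

namespace Pool.Agent.Lib.MP_87c4bd_co

universe u

variable {Ω : Type u} [MeasurableSpace Ω]

/-- A countable convex combination of indicators of members of `I` belongs to `VP_full`. -/
theorem bP_mem (π : Measure Ω) [IsProbabilityMeasure π] {I : Set (Set Ω)}
    (hI : ∀ J ∈ I, MeasurableSet J) (p : PMF I) : bP p ∈ VPfull I π := by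
  let _ : MeasurableSpace I := ⊤
  let β : Measure I := Measure.sum (fun J => p J • Measure.dirac J)
  have hβ : ∀ f : I → ℝ≥0∞, ∫⁻ J, f J ∂β = ∑' J, p J * f J := by
    intro f
    rw [lintegral_sum_measure]
    refine tsum_congr (fun J => ?_)
    rw [lintegral_smul_measure, lintegral_dirac' _ measurable_from_top, smul_eq_mul]
  have hβ1 : IsProbabilityMeasure β := by
    constructor
    have := hβ (fun _ => 1)
    rw [lintegral_const, one_mul] at this
    rw [this]
    simp only [mul_one]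
    exact p.tsum_coe
  refine ⟨inferInstance, β, hβ1, ?_, fun x => (hβ _).symm⟩
  -- the membership relation is null measurable
  have hsupp : β p.supportᶜ = 0 := by
    have h1 : β p.supportᶜ = ∫⁻ J, (p.supportᶜ).indicator 1 J ∂β :=
      (lintegral_indicator_one MeasurableSpace.measurableSet_top).symm
    rw [h1, hβ, ENNReal.tsum_eq_zero]
    intro J
    by_cases hJ : J ∈ p.support
    · rw [indicator_of_notMem (by simpa using hJ), mul_zero]
    · rw [PMF.mem_support_iff, not_not] at hJ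
      rw [hJ, zero_mul]
  have hA' : MeasurableSet (⋃ J ∈ p.support, ({J} ×ˢ (J : Set Ω) : Set (I × Ω))) := by
    refine MeasurableSet.biUnion p.support_countable (fun J _ => ?_)
    exact MeasurableSet.prod MeasurableSpace.measurableSet_top (hI _ J.2)
  refine hA'.nullMeasurableSet.congr ?_
  have hnull : (β.prod π) (p.supportᶜ ×ˢ univ) = 0 := by
    rw [Measure.prod_prod, hsupp, zero_mul]
  have hae : ∀ᵐ q ∂(β.prod π), q.1 ∈ p.support := by
    rw [ae_iff]
    refine measure_mono_null ?_ hnull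
    rintro ⟨J, x⟩ h
    exact ⟨h, mem_univ _⟩
  filter_upwards [hae] with q hq
  apply propext
  constructor
  · intro h
    obtain ⟨J, hJ, h2⟩ := mem_iUnion₂.mp h
    obtain ⟨h3, h4⟩ := h2
    have h5 : q.1 = J := h3
    show q.2 ∈ (q.1 : Set Ω)
    rw [h5]
    exact h4
  · intro h
    exact mem_iUnion₂.mpr ⟨q.1, hq, rfl, h⟩

/-- The new inequality: `H_full ≤ liminf (1/ℓ) log N_ℓ(λ)`. -/
theorem Hfull_le_lowerH (π : Measure Ω) [IsProbabilityMeasure π] {I : Set (Set Ω)}
    (hI : ∀ J ∈ I, MeasurableSet J) {lam : ℝ} (h1 : lam < 1) : Hfull I π ≤ lowerH I π lam := by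
  refine le_of_forall_gt_imp_ge_of_dense (fun E hE => ?_)
  obtain ⟨C', hC'1, hC'2⟩ := exists_between hE
  obtain ⟨C, hC1, hC2⟩ := exists_between hC'1
  obtain ⟨c, hc1, hc2⟩ := exists_between hC1
  have hC't : C' ≠ ⊤ := (hC'2.trans_le le_top).ne
  have hCt : C ≠ ⊤ := (hC2.trans_le le_top).ne
  obtain ⟨η, hη0, hηt, hnot⟩ := not_cond π hI h1 hc1 hc2 hCt
  obtain ⟨f, hf, hfc⟩ := exists_limit π hI (C' := C')
    (fun ε hε => good_set π hI hCt hη0 hηt hnot hC2 hε)
  have hε : E - C' ≠ 0 := (tsub_pos_of_lt hC'2).ne'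
  obtain ⟨q, hq⟩ := exists_of_hull π hI hf (ne_top_of_le_ne_top hC't hfc) hε
  calc Hfull I π ≤ phi π (bP q) := iInf₂_le _ (bP_mem π hI q)
    _ ≤ ∫⁻ x, nlog (ENNReal.ofReal (f x)) ∂π + (E - C') := hq
    _ ≤ C' + (E - C') := add_le_add_left hfc _
    _ = E := add_tsub_cancel_of_le hC'2.le

end Pool.Agent.Lib.MP_87c4bd_co
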