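import Pool.Agent.Lib.MP_87c4bd_co.Compat

set_option autoImplicit false

open MeasureTheory Filter Topology Set
open scoped ENNReal

namespace Pool.Agent.Lib.MP_87c4bd_co

universe u

variable {Ω : Type u} [MeasurableSpace Ω]

/-- The one-letter averaging property. -/
def Avg (π : Measure Ω) (I : Set (Set Ω)) (b : Ω → ℝ≥0∞) : Prop :=
  ∀ g : Ω → ℝ≥0∞, Measurable g → (∀ x, g x ≤ 1) →
    ∃ J ∈ I, ∫⁻ x, b x * g x ∂π ≤ ∫⁻ x, J.indicator 1 x * g x ∂π

theorem exists_avg (π : Measure Ω) [IsProbabilityMeasure π] {I : Set (Set Ω)} {a : Ω → ℝ≥0∞}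
    (ha : a ∈ VPfull I π) :
    ∃ b : Ω → ℝ≥0∞, Measurable b ∧ (∀ x, b x ≤ 1) ∧ a =ᵐ[π] b ∧ Avg π I b := by
  obtain ⟨mI, β, hβ1, hA, ha⟩ := ha
  set A : Set (I × Ω) := {p : I × Ω | p.2 ∈ (p.1 : Set Ω)} with hAdef
  let f : I × Ω → ℝ≥0∞ := A.indicator 1
  have hf : AEMeasurable f (β.prod π) := (aemeasurable_indicator_const_iff (1 : ℝ≥0∞)).mpr hA
  have hfe : ∀ (J : I) (x : Ω), f (J, x) = (J : Set Ω).indicator 1 x := fun J x => rfl
  have hae : a = fun x => ∫⁻ J, f (J, x) ∂β := funext ha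
  have ham : AEMeasurable a π := by
    rw [hae]
    exact hf.lintegral_prod_left'
  have ha1 : ∀ x, a x ≤ 1 := by
    intro x
    rw [ha x]
    calc ∫⁻ J : I, (J : Set Ω).indicator 1 x ∂β ≤ ∫⁻ _ : I, 1 ∂β :=
          lintegral_mono (fun J => indicator_one_le _ _)
      _ = 1 := by simp
  have hab : a =ᵐ[π] fun x => min (ham.mk a x) 1 := by
    filter_upwards [ham.ae_eq_mk] with x hx
    rw [← hx, min_eq_left (ha1 x)]
  refine ⟨fun x => min (ham.mk a x) 1, ham.measurable_mk.min measurable_const,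
    fun x => min_le_right _ _, hab, ?_⟩
  intro g hg hg1
  have hF : AEMeasurable (fun q : I × Ω => f q * g q.2) (β.prod π) :=
    hf.mul (hg.comp measurable_snd).aemeasurable
  have h1 : ∫⁻ x, min (ham.mk a x) 1 * g x ∂π = ∫⁻ J, ∫⁻ x, f (J, x) * g x ∂π ∂β := by
    rw [← lintegral_prod (fun q : I × Ω => f q * g q.2) hF, lintegral_prod_symm _ hF]
    refine lintegral_congr_ae ?_
    filter_upwards [hab] with x hx
    rw [← hx, ha x]
    exact (lintegral_mul_const' (g x) _ (ne_top_of_le_ne_top ENNReal.one_ne_top (hg1 x))).symm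
  have h2 : ∫⁻ J, ∫⁻ x, f (J, x) * g x ∂π ∂β ≠ ⊤ := by
    refine ne_top_of_le_ne_top ENNReal.one_ne_top ?_
    calc ∫⁻ J, ∫⁻ x, f (J, x) * g x ∂π ∂β ≤ ∫⁻ _ : I, ∫⁻ _ : Ω, 1 ∂π ∂β :=
          lintegral_mono (fun J => lintegral_mono (fun x =>
            mul_le_one' (by rw [hfe]; exact indicator_one_le _ _) (hg1 x)))
      _ = 1 := by simp
  obtain ⟨J, hJ⟩ := exists_lintegral_le h2
  exact ⟨J, J.2, h1.le.trans hJ⟩

/-- The multi-letter averaging property. -/
theorem exists_box (π : Measure Ω) [IsProbabilityMeasure π] {I : Set (Set Ω)}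
    (hI : ∀ J ∈ I, MeasurableSet J) {b : Ω → ℝ≥0∞} (hb : Measurable b) (hb1 : ∀ x, b x ≤ 1)
    (havg : Avg π I b) (ℓ : ℕ) :
    ∀ F : (Fin ℓ → Ω) → ℝ≥0∞, Measurable F → (∀ y, F y ≤ 1) →
      ∃ B : Fin ℓ → Set Ω, (∀ i, B i ∈ I) ∧
        ∫⁻ y, (∏ i, b (y i)) * F y ∂(Measure.pi fun _ : Fin ℓ => π) ≤
          ∫⁻ y, (∏ i, (B i).indicator 1 (y i)) * F y ∂(Measure.pi fun _ : Fin ℓ => π) := by
  induction ℓ with
  | zero =>
    intro F hF hF1
    exact ⟨Fin.elim0, fun i => i.elim0, by simp⟩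
  | succ ℓ ih =>
    intro F hF hF1
    have hprodm : ∀ (m : ℕ), Measurable fun y : Fin m → Ω => ∏ i, b (y i) := fun m =>
      Finset.measurable_fun_prod _ (fun i _ => hb.comp (measurable_pi_apply i))
    have hprod1 : ∀ (m : ℕ) (y : Fin m → Ω), ∏ i, b (y i) ≤ 1 := fun m y =>
      Finset.prod_le_one' (fun i _ => hb1 _)
    have hFc : Measurable fun p : Ω × (Fin ℓ → Ω) => F (Fin.cons p.1 p.2) := hF.comp measurable_cons
    have hFc2 : ∀ x, Measurable fun y : Fin ℓ → Ω => F (Fin.cons x y) := fun x =>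
      hFc.comp measurable_prodMk_left
    have hFc1 : ∀ y, Measurable fun x : Ω => F (Fin.cons x y) := fun y =>
      hFc.comp measurable_prodMk_right
    let g : Ω → ℝ≥0∞ := fun x =>
      ∫⁻ y, (∏ i, b (y i)) * F (Fin.cons x y) ∂(Measure.pi fun _ : Fin ℓ => π)
    have hgm : Measurable g := by
      refine Measurable.lintegral_prod_right' (f := fun p : Ω × (Fin ℓ → Ω) =>
        (∏ i, b (p.2 i)) * F (Fin.cons p.1 p.2)) ?_
      exact ((hprodm ℓ).comp measurable_snd).mul hFc
    have hg1 : ∀ x, g x ≤ 1 := by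
      intro x
      calc g x ≤ ∫⁻ _, 1 ∂(Measure.pi fun _ : Fin ℓ => π) :=
            lintegral_mono (fun y => mul_le_one' (hprod1 _ _) (hF1 _))
        _ = 1 := by simp
    obtain ⟨J, hJ, hJle⟩ := havg g hgm hg1
    have hJm : Measurable (J.indicator (1 : Ω → ℝ≥0∞)) := measurable_one.indicator (hI J hJ)
    let F' : (Fin ℓ → Ω) → ℝ≥0∞ := fun y => ∫⁻ x, J.indicator 1 x * F (Fin.cons x y) ∂π
    have hF'm : Measurable F' := by
      refine Measurable.lintegral_prod_left' (f := fun p : Ω × (Fin ℓ → Ω) =>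
        J.indicator 1 p.1 * F (Fin.cons p.1 p.2)) ?_
      exact (hJm.comp measurable_fst).mul hFc
    have hF'1 : ∀ y, F' y ≤ 1 := by
      intro y
      calc F' y ≤ ∫⁻ _, 1 ∂π :=
            lintegral_mono (fun y => mul_le_one' (indicator_one_le _ _) (hF1 _))
        _ = 1 := by simp
    obtain ⟨B, hB, hBle⟩ := ih F' hF'm hF'1
    refine ⟨Fin.cons J B, ?_, ?_⟩
    · intro i
      refine Fin.cases ?_ (fun i => ?_) i
      · simpa using hJ
      · simpa using hB i
    · -- a general computation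
      have key : ∀ (w : (Fin ℓ → Ω) → ℝ≥0∞), Measurable w →
          ∫⁻ x, J.indicator 1 x * ∫⁻ y, w y * F (Fin.cons x y) ∂(Measure.pi fun _ : Fin ℓ => π) ∂π
            = ∫⁻ y, w y * F' y ∂(Measure.pi fun _ : Fin ℓ => π) := by
        intro w hw
        calc ∫⁻ x, J.indicator 1 x * ∫⁻ y, w y * F (Fin.cons x y) ∂(Measure.pi fun _ : Fin ℓ => π) ∂π
            = ∫⁻ x, ∫⁻ y, J.indicator 1 x * (w y * F (Fin.cons x y))
                ∂(Measure.pi fun _ : Fin ℓ => π) ∂π := by
              refine lintegral_congr (fun x => ?_)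
              have hm : Measurable fun y => w y * F (Fin.cons x y) := hw.mul (hFc2 x)
              rw [lintegral_const_mul _ hm]
          _ = ∫⁻ y, ∫⁻ x, J.indicator 1 x * (w y * F (Fin.cons x y)) ∂π
                ∂(Measure.pi fun _ : Fin ℓ => π) := by
              refine lintegral_lintegral_swap ?_
              exact ((hJm.comp measurable_fst).mul ((hw.comp measurable_snd).mul hFc)).aemeasurable
          _ = ∫⁻ y, w y * F' y ∂(Measure.pi fun _ : Fin ℓ => π) := by
              refine lintegral_congr (fun y => ?_)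
              have hm : Measurable fun x => J.indicator (1 : Ω → ℝ≥0∞) x * F (Fin.cons x y) :=
                hJm.mul (hFc1 y)
              simp only [F']
              rw [← lintegral_const_mul _ hm]
              refine lintegral_congr (fun x => ?_)
              ring
      have hBm : ∀ (m : ℕ) (B : Fin m → Set Ω), (∀ i, B i ∈ I) →
          Measurable fun y : Fin m → Ω => ∏ i, (B i).indicator (1 : Ω → ℝ≥0∞) (y i) :=
        fun m B hB => Finset.measurable_fun_prod _ (fun i _ =>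
          (measurable_one.indicator (hI _ (hB i))).comp (measurable_pi_apply i))
      have hcons : ∀ i, (Fin.cons J B : Fin (ℓ + 1) → Set Ω) i ∈ I := by
        intro i
        refine Fin.cases ?_ (fun i => ?_) i
        · simpa using hJ
        · simpa using hB i
      calc ∫⁻ y, (∏ i, b (y i)) * F y ∂(Measure.pi fun _ : Fin (ℓ + 1) => π)
          = ∫⁻ x, b x * g x ∂π := by
            have hm : Measurable fun y : Fin (ℓ + 1) → Ω => (∏ i, b (y i)) * F y :=
              (hprodm (ℓ + 1)).mul hF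
            rw [lintegral_pi_succ π hm]
            refine lintegral_congr (fun x => ?_)
            have hm2 : Measurable fun y : Fin ℓ → Ω => (∏ i, b (y i)) * F (Fin.cons x y) :=
              (hprodm ℓ).mul (hFc2 x)
            simp only [Fin.prod_univ_succ, Fin.cons_zero, Fin.cons_succ, mul_assoc]
            rw [lintegral_const_mul _ hm2]
        _ ≤ ∫⁻ x, J.indicator 1 x * g x ∂π := hJle
        _ = ∫⁻ y, (∏ i, b (y i)) * F' y ∂(Measure.pi fun _ : Fin ℓ => π) := key _ (hprodm ℓ)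
        _ ≤ ∫⁻ y, (∏ i, (B i).indicator 1 (y i)) * F' y ∂(Measure.pi fun _ : Fin ℓ => π) := hBle
        _ = ∫⁻ x, J.indicator 1 x * ∫⁻ y, (∏ i, (B i).indicator 1 (y i)) * F (Fin.cons x y)
              ∂(Measure.pi fun _ : Fin ℓ => π) ∂π := (key _ (hBm ℓ B hB)).symm
        _ = ∫⁻ y, (∏ i, ((Fin.cons J B : Fin (ℓ + 1) → Set Ω) i).indicator 1 (y i)) * F y
              ∂(Measure.pi fun _ : Fin (ℓ + 1) => π) := by
            have hm : Measurable fun y : Fin (ℓ + 1) → Ω =>
                (∏ i, ((Fin.cons J B : Fin (ℓ + 1) → Set Ω) i).indicator (1 : Ω → ℝ≥0∞) (y i)) *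
                  F y := (hBm (ℓ + 1) _ hcons).mul hF
            rw [lintegral_pi_succ π hm]
            refine lintegral_congr (fun x => ?_)
            have hm2 : Measurable fun y : Fin ℓ → Ω =>
                (∏ i, (B i).indicator (1 : Ω → ℝ≥0∞) (y i)) * F (Fin.cons x y) :=
              (hBm ℓ B hB).mul (hFc2 x)
            simp only [Fin.prod_univ_succ, Fin.cons_zero, Fin.cons_succ, mul_assoc]
            rw [lintegral_const_mul _ hm2]

end Pool.Agent.Lib.MP_87c4bd_co
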