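import Mathlib

set_option autoImplicit false

open MeasureTheory Filter Topology
open scoped ENNReal

namespace Pool.Agent.Lib.MP_87c4bd_co

universe u

variable {Ω : Type u} [MeasurableSpace Ω]

/-- `-log t` as an extended nonnegative real, for `t ∈ [0,1]`, with `-log 0 = ∞`
(natural logarithm; for `t ≥ 1`, which is not used, the value is `0`). -/
noncomputable def nlog (t : ℝ≥0∞) : ℝ≥0∞ := (-(ENNReal.log t)).toENNReal

/-- `N_ℓ(I, π, λ)`: the least number of `ℓ`-dimensional `I`-boxes `B z 0 × ⋯ × B z (ℓ-1)` whose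
union has `π^ℓ`-measure at least `1 - λ`, and `∞` if no finite number suffices. -/
noncomputable def boxNumber (I : Set (Set Ω)) (π : Measure Ω) (lam : ℝ) (ℓ : ℕ) : ℝ≥0∞ :=
  ⨅ (n : ℕ) (_ : ∃ B : Fin n → Fin ℓ → Set Ω, (∀ z i, B z i ∈ I) ∧
    ENNReal.ofReal (1 - lam) ≤
      (Measure.pi fun _ : Fin ℓ => π) (⋃ z, Set.pi Set.univ (B z))), (n : ℝ≥0∞)

/-- `(1/ℓ) log N_ℓ(I, π, λ)` (as `N_ℓ ≥ 1` for `λ < 1`, the logarithm is nonnegative). -/
noncomputable def rate (I : Set (Set Ω)) (π : Measure Ω) (lam : ℝ) (ℓ : ℕ) : ℝ≥0∞ :=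
  (ENNReal.log (boxNumber I π lam ℓ)).toENNReal / ℓ

/-- The upper covering entropy `limsup_ℓ (1/ℓ) log N_ℓ(I, π, λ)`. -/
noncomputable def upperH (I : Set (Set Ω)) (π : Measure Ω) (lam : ℝ) : ℝ≥0∞ :=
  limsup (rate I π lam) atTop

/-- The lower covering entropy `liminf_ℓ (1/ℓ) log N_ℓ(I, π, λ)`. -/
noncomputable def lowerH (I : Set (Set Ω)) (π : Measure Ω) (lam : ℝ) : ℝ≥0∞ :=
  liminf (rate I π lam) atTop

/-- `φ_π(a) = ∫ -log a dπ` for `a : Ω → [0,1]`. -/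
noncomputable def phi (π : Measure Ω) (a : Ω → ℝ≥0∞) : ℝ≥0∞ := ∫⁻ x, nlog (a x) ∂π

/-- `VP_full(I, π)`: all functions `a(x) = ∫ 1_J(x) dβ(J)`, where `β` is a probability measure on
some `σ`-algebra of subsets of `I` that is compatible, i.e. `{(J, x) : x ∈ J}` is measurable for the
completion of `β × π`. -/
def VPfull (I : Set (Set Ω)) (π : Measure Ω) : Set (Ω → ℝ≥0∞) :=
  {a | ∃ (_ : MeasurableSpace I) (β : Measure I), IsProbabilityMeasure β ∧
    NullMeasurableSet {p : I × Ω | p.2 ∈ (p.1 : Set Ω)} (β.prod π) ∧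
    ∀ x, a x = ∫⁻ J : I, (J : Set Ω).indicator 1 x ∂β}

/-- `H_full(I, π)`: the infimum of `φ_π` over `VP_full(I, π)`. -/
noncomputable def Hfull (I : Set (Set Ω)) (π : Measure Ω) : ℝ≥0∞ :=
  ⨅ a ∈ VPfull I π, phi π a

end Pool.Agent.Lib.MP_87c4bd_co
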