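import Pool.Agent.Lib.MP_87c4bd_co.Cover

set_option autoImplicit false

open MeasureTheory Filter Topology Set
open scoped ENNReal

namespace Pool.Agent.Lib.MP_87c4bd_co

universe u

variable {Ω : Type u} [MeasurableSpace Ω]

omit [MeasurableSpace Ω] in
theorem prod_indicator_eq {ℓ : ℕ} (B : Fin ℓ → Set Ω) (y : Fin ℓ → Ω) :
    ∏ i, (B i).indicator (1 : Ω → ℝ≥0∞) (y i) = (Set.pi univ B).indicator 1 y := by
  classical
  by_cases h : y ∈ Set.pi univ B
  · rw [indicator_of_mem h]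
    exact Finset.prod_eq_one (fun i _ => by rw [indicator_of_mem (h i (mem_univ i))]; rfl)
  · rw [indicator_of_notMem h]
    simp only [Set.mem_pi, mem_univ, true_implies, not_forall] at h
    obtain ⟨i, hi⟩ := h
    exact Finset.prod_eq_zero (Finset.mem_univ i) (indicator_of_notMem hi _)

/-- Greedy covering. -/
theorem exists_cover (π : Measure Ω) [IsProbabilityMeasure π] {I : Set (Set Ω)}
    (hI : ∀ J ∈ I, MeasurableSet J) {b : Ω → ℝ≥0∞} (hb : Measurable b) (hb1 : ∀ x, b x ≤ 1)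
    (havg : Avg π I b) {ℓ : ℕ} {p : ℝ≥0∞} {S : Set (Fin ℓ → Ω)} (hS : MeasurableSet S)
    (hp : ∀ y ∈ S, p ≤ ∏ i, b (y i)) (M : ℕ) :
    ∃ B : Fin M → Fin ℓ → Set Ω, (∀ z i, B z i ∈ I) ∧
      (Measure.pi fun _ : Fin ℓ => π) (S \ ⋃ z, Set.pi univ (B z)) ≤ (1 - p) ^ M := by
  induction M with
  | zero =>
    refine ⟨Fin.elim0, fun z => z.elim0, ?_⟩
    rw [pow_zero]
    exact prob_le_one
  | succ M ih =>
    obtain ⟨B, hB, hBle⟩ := ih
    set U : Set (Fin ℓ → Ω) := S \ ⋃ z, Set.pi univ (B z) with hU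
    have hboxm : ∀ (B : Fin ℓ → Set Ω), (∀ i, B i ∈ I) → MeasurableSet (Set.pi univ B) :=
      fun B hB => MeasurableSet.univ_pi (fun i => hI _ (hB i))
    have hUm : MeasurableSet U := hS.diff (MeasurableSet.iUnion (fun z => hboxm _ (hB z)))
    obtain ⟨B', hB', hB'le⟩ := exists_box π hI hb hb1 havg ℓ (U.indicator 1)
      (measurable_one.indicator hUm) (fun y => indicator_one_le _ _)
    have h1 : p * (Measure.pi fun _ : Fin ℓ => π) U ≤
        ∫⁻ y, (∏ i, b (y i)) * U.indicator 1 y ∂(Measure.pi fun _ : Fin ℓ => π) := by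
      rw [← lintegral_indicator_one hUm, ← lintegral_const_mul _ (measurable_one.indicator hUm)]
      refine lintegral_mono (fun y => ?_)
      by_cases hy : y ∈ U
      · exact mul_le_mul_left (hp y hy.1) _
      · simp [hy]
    have h2 : ∫⁻ y, (∏ i, (B' i).indicator 1 (y i)) * U.indicator 1 y
        ∂(Measure.pi fun _ : Fin ℓ => π) = (Measure.pi fun _ : Fin ℓ => π) (Set.pi univ B' ∩ U) := by
      rw [← lintegral_indicator_one ((hboxm B' hB').inter hUm)]
      refine lintegral_congr (fun y => ?_)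
      rw [prod_indicator_eq, inter_indicator_one]
      rfl
    have h3 : (Measure.pi fun _ : Fin ℓ => π) (U \ Set.pi univ B') ≤ (1 - p) ^ (M + 1) := by
      have h4 : (Measure.pi fun _ : Fin ℓ => π) (U \ Set.pi univ B') =
          (Measure.pi fun _ : Fin ℓ => π) U -
            (Measure.pi fun _ : Fin ℓ => π) (Set.pi univ B' ∩ U) := by
        rw [← sdiff_inter_self_eq_sdiff, measure_sdiff inter_subset_right
          ((hboxm B' hB').inter hUm).nullMeasurableSet (measure_ne_top _ _)]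
      rw [h4]
      calc (Measure.pi fun _ : Fin ℓ => π) U -
            (Measure.pi fun _ : Fin ℓ => π) (Set.pi univ B' ∩ U)
          ≤ (Measure.pi fun _ : Fin ℓ => π) U - p * (Measure.pi fun _ : Fin ℓ => π) U :=
            tsub_le_tsub_left (h1.trans (hB'le.trans h2.le)) _
        _ = (1 - p) * (Measure.pi fun _ : Fin ℓ => π) U := by
            rw [ENNReal.sub_mul (fun _ _ => measure_ne_top _ _), one_mul]
        _ ≤ (1 - p) * (1 - p) ^ M := mul_le_mul_right hBle _
        _ = (1 - p) ^ (M + 1) := by ring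
    refine ⟨Fin.cons B' B, ?_, ?_⟩
    · intro z
      refine Fin.cases ?_ (fun z => ?_) z
      · simpa using hB'
      · simpa using hB z
    · refine (measure_mono ?_).trans h3
      rintro y ⟨hyS, hy⟩
      rw [mem_iUnion, not_exists] at hy
      refine ⟨⟨hyS, ?_⟩, ?_⟩
      · rw [mem_iUnion, not_exists]
        intro z
        have := hy z.succ
        simpa using this
      · have := hy 0
        simpa using this

/-- The weak law of large numbers, upper tail. -/
theorem wlln (π : Measure Ω) [IsProbabilityMeasure π] {h : Ω → ℝ≥0∞} (hm : Measurable h)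
    {c : ℝ≥0∞} (hc : ∫⁻ x, h x ∂π < c) (hct : c ≠ ⊤) :
    Tendsto (fun ℓ : ℕ => (Measure.pi fun _ : Fin ℓ => π) {y | ∑ i, h (y i) ≤ ℓ * c}ᶜ) atTop
      (𝓝 0) := by
  have hfin : ∫⁻ x, h x ∂π ≠ ⊤ := (hc.trans_le le_top).ne
  let P : Measure (ℕ → Ω) := Measure.infinitePi fun _ => π
  let X : ℕ → (ℕ → Ω) → ℝ := fun i ω => (h (ω i)).toReal
  let E : ∀ ℓ : ℕ, Set (Fin ℓ → Ω) := fun ℓ => {y | ∑ i, h (y i) ≤ ℓ * c}
  have hEm : ∀ ℓ, MeasurableSet (E ℓ) := fun ℓ =>
    measurableSet_le (Finset.measurable_fun_sum _ (fun i _ => hm.comp (measurable_pi_apply i)))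
      measurable_const
  let r : ∀ ℓ : ℕ, (ℕ → Ω) → (Fin ℓ → Ω) := fun ℓ ω i => ω i
  have hr : ∀ ℓ, Measurable (r ℓ) := fun ℓ => measurable_pi_lambda _ (fun i => measurable_pi_apply _)
  have hmap : ∀ ℓ, P.map (r ℓ) = Measure.pi fun _ : Fin ℓ => π := by
    intro ℓ
    exact (Measure.map_infinitePi_infinitePi_of_inj (P := fun _ : ℕ => π)
      (f := fun i : Fin ℓ => (i : ℕ)) Fin.val_injective).trans
      (Measure.infinitePi_eq_pi (μ := fun _ : Fin ℓ => π))
  have hmeas : ∀ ℓ, (Measure.pi fun _ : Fin ℓ => π) (E ℓ)ᶜ = P (r ℓ ⁻¹' (E ℓ)ᶜ) := by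
    intro ℓ
    rw [← hmap ℓ, Measure.map_apply (hr ℓ) (hEm ℓ).compl]
  show Tendsto (fun ℓ : ℕ => (Measure.pi fun _ : Fin ℓ => π) (E ℓ)ᶜ) atTop (𝓝 0)
  simp only [hmeas]
  have hmp : ∀ i, MeasurePreserving (fun ω : ℕ → Ω => ω i) P π := fun i =>
    measurePreserving_eval_infinitePi (fun _ : ℕ => π) i
  -- integrability
  have hint0 : Integrable (fun x => (h x).toReal) π :=
    integrable_toReal_of_lintegral_ne_top hm.aemeasurable hfin
  have hint : Integrable (X 0) P := (hmp 0).integrable_comp_of_integrable hint0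
  have hind : ProbabilityTheory.iIndepFun X P :=
    ProbabilityTheory.iIndepFun_infinitePi (X := fun _ x => (h x).toReal) (fun _ => hm.ennreal_toReal)
  have hident : ∀ i, ProbabilityTheory.IdentDistrib (X i) (X 0) P P := by
    intro i
    refine ⟨(hm.ennreal_toReal.comp (measurable_pi_apply i)).aemeasurable,
      (hm.ennreal_toReal.comp (measurable_pi_apply 0)).aemeasurable, ?_⟩
    have e1 : ∀ j, P.map (X j) = π.map (fun x => (h x).toReal) := by
      intro j
      rw [← (hmp j).map_eq, Measure.map_map hm.ennreal_toReal (hmp j).measurable]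
      rfl
    rw [e1, e1]
  have hlim := ProbabilityTheory.strong_law_ae_real X hint
    (fun i j hij => hind.indepFun hij) hident
  have hexp : ∫ ω, X 0 ω ∂P = (∫⁻ x, h x ∂π).toReal := by
    have e1 : ∫ ω, X 0 ω ∂P = ∫ x, (h x).toReal ∂π := by
      conv_rhs => rw [← (hmp 0).map_eq]
      rw [integral_map (hmp 0).measurable.aemeasurable hm.ennreal_toReal.aestronglyMeasurable]
    rw [e1, integral_toReal hm.aemeasurable (ae_lt_top hm hfin)]
  have hfinae : ∀ᵐ ω ∂P, ∀ i, h (ω i) < ⊤ := by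
    rw [ae_all_iff]
    intro i
    exact (hmp i).quasiMeasurePreserving.ae (ae_lt_top hm hfin)
  have h1 : ∀ ℓ, P (r ℓ ⁻¹' (E ℓ)ᶜ) = ∫⁻ ω, (r ℓ ⁻¹' (E ℓ)ᶜ).indicator 1 ω ∂P := fun ℓ =>
    (lintegral_indicator_one (hr ℓ (hEm ℓ).compl)).symm
  simp only [h1]
  have h2 : (0 : ℝ≥0∞) = ∫⁻ _, 0 ∂P := by simp
  rw [h2]
  refine tendsto_lintegral_of_dominated_convergence (fun _ => 1)
    (fun ℓ => measurable_one.indicator (hr ℓ (hEm ℓ).compl))
    (fun ℓ => ae_of_all _ (fun ω => indicator_one_le _ _)) (by simp) ?_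
  filter_upwards [hlim, hfinae] with ω hω hω2
  refine tendsto_const_nhds.congr' ?_
  have hlt : (∫⁻ x, h x ∂π).toReal < c.toReal := (ENNReal.toReal_lt_toReal hfin hct).mpr hc
  rw [hexp] at hω
  filter_upwards [hω.eventually (gt_mem_nhds hlt), eventually_gt_atTop 0] with ℓ hℓ hℓ0
  rw [indicator_of_notMem]
  intro hmem
  apply hmem
  show ∑ i : Fin ℓ, h (ω i) ≤ ℓ * c
  have hℓ0' : (0 : ℝ) < ℓ := by exact_mod_cast hℓ0
  have h3 : ∑ i ∈ Finset.range ℓ, X i ω ≤ ℓ * c.toReal := by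
    have := (div_lt_iff₀ hℓ0').mp hℓ
    linarith
  have h4 : ∑ i : Fin ℓ, h (ω i) = ENNReal.ofReal (∑ i ∈ Finset.range ℓ, X i ω) := by
    rw [ENNReal.ofReal_sum_of_nonneg (fun i _ => ENNReal.toReal_nonneg),
      ← Fin.sum_univ_eq_sum_range (fun i => ENNReal.ofReal (X i ω)) ℓ]
    exact Finset.sum_congr rfl (fun i _ => (ENNReal.ofReal_toReal (hω2 i).ne).symm)
  rw [h4]
  refine ENNReal.ofReal_le_of_le_toReal ?_
  rw [ENNReal.toReal_mul, ENNReal.toReal_natCast]
  exact h3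

end Pool.Agent.Lib.MP_87c4bd_co
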