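import Mathlib

set_option autoImplicit false

open Filter Topology Set

namespace Pool.Agent.Lib.MP_87c4bd_co

/-- A decreasing sequence of nonempty closed convex sets of uniformly bounded distance to the
origin in a Hilbert space has a common point. -/
theorem nested_nonempty {H : Type*} [NormedAddCommGroup H] [InnerProductSpace ℝ H]
    [CompleteSpace H] (K : ℕ → Set H) (hanti : Antitone K) (hconv : ∀ n, Convex ℝ (K n))
    (hcl : ∀ n, IsClosed (K n)) (R : ℝ) (hb : ∀ n, ∃ x ∈ K n, ‖x‖ ≤ R) :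
    (⋂ n, K n).Nonempty := by
  have hmin : ∀ n, ∃ x ∈ K n, ∀ w ∈ K n, ‖x‖ ≤ ‖w‖ := by
    intro n
    obtain ⟨y, hy, _⟩ := hb n
    obtain ⟨v, hv, hv'⟩ := exists_norm_eq_iInf_of_complete_convex ⟨y, hy⟩ (hcl n).isComplete
      (hconv n) 0
    refine ⟨v, hv, fun w hw => ?_⟩
    rw [zero_sub, norm_neg] at hv'
    rw [hv']
    have := ciInf_le (f := fun w : K n => ‖(0 : H) - w‖) ⟨0, by
      rintro _ ⟨z, rfl⟩
      exact norm_nonneg _⟩ ⟨w, hw⟩
    simpa using this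
  choose x hx hxmin using hmin
  have hR : ∀ n, ‖x n‖ ≤ R := by
    intro n
    obtain ⟨y, hy, hyR⟩ := hb n
    exact (hxmin n y hy).trans hyR
  have hmono : Monotone (fun n => ‖x n‖ ^ 2) := by
    intro n m hnm
    exact pow_le_pow_left₀ (norm_nonneg _) (hxmin n (x m) (hanti hnm (hx m))) 2
  have hbdd : BddAbove (range (fun n => ‖x n‖ ^ 2)) := by
    refine ⟨R ^ 2, ?_⟩
    rintro _ ⟨n, rfl⟩
    exact pow_le_pow_left₀ (norm_nonneg _) (hR n) 2
  have hlim := tendsto_atTop_ciSup hmono hbdd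
  have hdist : ∀ n m, n ≤ m → ‖x n - x m‖ ^ 2 ≤ 2 * (‖x m‖ ^ 2 - ‖x n‖ ^ 2) := by
    intro n m hnm
    have h1 : (1 / 2 : ℝ) • x n + (1 / 2 : ℝ) • x m ∈ K n :=
      hconv n (hx n) (hanti hnm (hx m)) (by norm_num) (by norm_num) (by norm_num)
    have h2 := hxmin n _ h1
    have h3 : ‖(1 / 2 : ℝ) • x n + (1 / 2 : ℝ) • x m‖ = (1 / 2) * ‖x n + x m‖ := by
      rw [← smul_add, norm_smul]
      norm_num
    rw [h3] at h2
    have h4 := parallelogram_law_with_norm ℝ (x n) (x m)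
    have h5 : (2 * ‖x n‖) ^ 2 ≤ ‖x n + x m‖ ^ 2 :=
      pow_le_pow_left₀ (by positivity) (by linarith) 2
    nlinarith
  have hcauchy : CauchySeq x := by
    rw [Metric.cauchySeq_iff']
    intro ε hε
    have hev := hlim.eventually (lt_mem_nhds (show (⨆ n, ‖x n‖ ^ 2) - ε ^ 2 / 2 <
      ⨆ n, ‖x n‖ ^ 2 by linarith [sq_pos_of_pos hε]))
    obtain ⟨N, hN⟩ := hev.exists
    refine ⟨N, fun n hn => ?_⟩
    have h1 := hdist N n hn
    have h2 : ‖x n‖ ^ 2 ≤ ⨆ n, ‖x n‖ ^ 2 := le_ciSup hbdd n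
    have h3 : ‖x N - x n‖ ^ 2 < ε ^ 2 := by linarith
    rw [dist_comm, dist_eq_norm]
    exact lt_of_pow_lt_pow_left₀ 2 hε.le h3
  obtain ⟨z, hz⟩ := cauchySeq_tendsto_of_complete hcauchy
  refine ⟨z, mem_iInter.mpr (fun n => ?_)⟩
  refine (hcl n).mem_of_tendsto hz ?_
  filter_upwards [eventually_ge_atTop n] with m hm
  exact hanti hm (hx m)

end Pool.Agent.Lib.MP_87c4bd_co
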