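import Pool.Agent.Lib.MP_87c4bd_co.NLog

set_option autoImplicit false

open MeasureTheory Filter Topology Set
open scoped ENNReal

namespace Pool.Agent.Lib.MP_87c4bd_co

universe u

variable {Ω : Type u} [MeasurableSpace Ω]

/-- Mixture of box indicators. -/
noncomputable def boxMix {n ℓ : ℕ} (r : Fin n → ℝ≥0∞) (B : Fin n → Fin ℓ → Set Ω)
    (y : Fin ℓ → Ω) : ℝ≥0∞ := ∑ z, r z * ∏ i, (B z i).indicator 1 (y i)

/-- Mixture of indicators. -/
noncomputable def mix {n : ℕ} (r : Fin n → ℝ≥0∞) (J : Fin n → Set Ω) (x : Ω) : ℝ≥0∞ :=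
  ∑ z, r z * (J z).indicator 1 x

omit [MeasurableSpace Ω] in
theorem indicator_one_le (J : Set Ω) (x : Ω) : J.indicator (1 : Ω → ℝ≥0∞) x ≤ 1 :=
  Set.indicator_le_self' (fun _ _ => zero_le_one) x

theorem measurable_mix {n : ℕ} (r : Fin n → ℝ≥0∞) {J : Fin n → Set Ω}
    (hJ : ∀ z, MeasurableSet (J z)) : Measurable (mix r J) := by
  unfold mix
  refine Finset.measurable_sum _ (fun z _ => ?_)
  exact (measurable_one.indicator (hJ z)).const_mul _

omit [MeasurableSpace Ω] in
theorem mix_le_one {n : ℕ} {r : Fin n → ℝ≥0∞} (hr : ∑ z, r z = 1) (J : Fin n → Set Ω) (x : Ω) :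
    mix r J x ≤ 1 := by
  rw [← hr]
  refine Finset.sum_le_sum (fun z _ => ?_)
  calc r z * (J z).indicator 1 x ≤ r z * 1 := mul_le_mul_right (indicator_one_le _ _) _
    _ = r z := mul_one _

theorem measurable_boxMix {n ℓ : ℕ} (r : Fin n → ℝ≥0∞) {B : Fin n → Fin ℓ → Set Ω}
    (hB : ∀ z i, MeasurableSet (B z i)) : Measurable (boxMix r B) := by
  unfold boxMix
  refine Finset.measurable_sum _ (fun z _ => ?_)
  refine Measurable.const_mul ?_ _
  refine Finset.measurable_prod _ (fun i _ => ?_)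
  exact (measurable_one.indicator (hB z i)).comp (measurable_pi_apply i)

omit [MeasurableSpace Ω] in
theorem boxMix_le_one {n ℓ : ℕ} {r : Fin n → ℝ≥0∞} (hr : ∑ z, r z = 1)
    (B : Fin n → Fin ℓ → Set Ω) (y : Fin ℓ → Ω) : boxMix r B y ≤ 1 := by
  rw [← hr]
  refine Finset.sum_le_sum (fun z _ => ?_)
  have : ∏ i, (B z i).indicator (1 : Ω → ℝ≥0∞) (y i) ≤ 1 :=
    Finset.prod_le_one' (fun i _ => indicator_one_le _ _)
  calc r z * ∏ i, (B z i).indicator (1 : Ω → ℝ≥0∞) (y i) ≤ r z * 1 := mul_le_mul_right this _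
    _ = r z := mul_one _

/-- The single-letter inequality that drives the induction. -/
def Cond (π : Measure Ω) (I : Set (Set Ω)) (C D η : ℝ≥0∞) : Prop :=
  ∀ (n : ℕ) (r : Fin n → ℝ≥0∞) (J : Fin n → Set Ω) (q : Ω → ℝ≥0∞), (∀ z, J z ∈ I) →
    ∑ z, r z = 1 → Measurable q → (∀ x, q x ≤ 1) →
    C * ∫⁻ x, q x ∂π + D * (∫⁻ x, q x ∂π) ^ 2 ≤
      ∫⁻ x, q x * nlog (mix r J x) ∂π + C * η + D * ∫⁻ x, (q x) ^ 2 ∂π

omit [MeasurableSpace Ω] in
theorem boxMix_cons {n ℓ : ℕ} (r : Fin n → ℝ≥0∞) (hr : ∑ z, r z = 1)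
    (B : Fin n → Fin (ℓ + 1) → Set Ω) (x : Ω)
    (hx : mix r (fun z => B z 0) x ≠ 0) :
    ∃ r' : Fin n → ℝ≥0∞, ∑ z, r' z = 1 ∧ ∀ y : Fin ℓ → Ω,
      boxMix r B (Fin.cons x y : Fin (ℓ + 1) → Ω) =
        mix r (fun z => B z 0) x * boxMix r' (fun z i => B z i.succ) y := by
  have htop : mix r (fun z => B z 0) x ≠ ⊤ := ((mix_le_one hr _ x).trans_lt ENNReal.one_lt_top).ne
  refine ⟨fun z => r z * (B z 0).indicator 1 x / mix r (fun z => B z 0) x, ?_, ?_⟩
  · simp only [div_eq_mul_inv]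
    rw [← Finset.sum_mul]
    exact ENNReal.mul_inv_cancel hx htop
  · intro y
    unfold boxMix
    rw [Finset.mul_sum]
    refine Finset.sum_congr rfl (fun z _ => ?_)
    rw [Fin.prod_univ_succ]
    simp only [Fin.cons_zero, Fin.cons_succ]
    rw [← mul_assoc, ← mul_assoc, mul_comm (mix r (fun z => B z 0) x),
      ENNReal.div_mul_cancel hx htop]

theorem symm_apply_cons {ℓ : ℕ} (x : Ω) (y : Fin ℓ → Ω) :
    (MeasurableEquiv.piFinSuccAbove (fun _ : Fin (ℓ + 1) => Ω) 0).symm (x, y) =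
      (Fin.cons x y : Fin (ℓ + 1) → Ω) := by
  simp [MeasurableEquiv.piFinSuccAbove_symm_apply, Fin.insertNthEquiv]

/-- Fubini for the first coordinate. -/
theorem lintegral_pi_succ (π : Measure Ω) [IsProbabilityMeasure π] {ℓ : ℕ}
    {f : (Fin (ℓ + 1) → Ω) → ℝ≥0∞} (hf : Measurable f) :
    ∫⁻ y, f y ∂(Measure.pi fun _ : Fin (ℓ + 1) => π) =
      ∫⁻ x, ∫⁻ y, f (Fin.cons x y) ∂(Measure.pi fun _ : Fin ℓ => π) ∂π := by
  have hmp := (measurePreserving_piFinSuccAbove (fun _ : Fin (ℓ + 1) => π) 0).symm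
  rw [← hmp.lintegral_comp hf, lintegral_prod]
  · simp only [symm_apply_cons]
  · exact (hf.comp hmp.measurable).aemeasurable

theorem measurable_cons {ℓ : ℕ} :
    Measurable (fun p : Ω × (Fin ℓ → Ω) => (Fin.cons p.1 p.2 : Fin (ℓ + 1) → Ω)) := by
  have h := (MeasurableEquiv.piFinSuccAbove (fun _ : Fin (ℓ + 1) => Ω) 0).symm.measurable
  have e : (fun p : Ω × (Fin ℓ → Ω) => (Fin.cons p.1 p.2 : Fin (ℓ + 1) → Ω)) =
      ⇑(MeasurableEquiv.piFinSuccAbove (fun _ : Fin (ℓ + 1) => Ω) 0).symm := by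
    funext p
    exact (symm_apply_cons p.1 p.2).symm
  rw [e]
  exact h

theorem induct (π : Measure Ω) [IsProbabilityMeasure π] {I : Set (Set Ω)}
    (hI : ∀ J ∈ I, MeasurableSet J) {C D η : ℝ≥0∞} (hD : D ≠ ⊤)
    (hcond : Cond π I C D η) {n : ℕ} :
    ∀ (ℓ : ℕ) (B : Fin n → Fin ℓ → Set Ω) (_ : ∀ z i, B z i ∈ I) (r : Fin n → ℝ≥0∞)
      (_ : ∑ z, r z = 1) (E : Set (Fin ℓ → Ω)) (_ : MeasurableSet E),
      C * ℓ * (Measure.pi fun _ : Fin ℓ => π) E + D * ((Measure.pi fun _ : Fin ℓ => π) E) ^ 2 ≤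
        ∫⁻ y in E, nlog (boxMix r B y) ∂(Measure.pi fun _ : Fin ℓ => π) + C * η * ℓ +
          D * (Measure.pi fun _ : Fin ℓ => π) E := by
  intro ℓ
  induction ℓ with
  | zero =>
    intro B hB r hr E hE
    have h1 : (Measure.pi fun _ : Fin 0 => π) E ≤ 1 := prob_le_one
    have h2 : ((Measure.pi fun _ : Fin 0 => π) E) ^ 2 ≤ (Measure.pi fun _ : Fin 0 => π) E := by
      rw [sq]
      calc _ ≤ (Measure.pi fun _ : Fin 0 => π) E * 1 := mul_le_mul_right h1 _
        _ = _ := mul_one _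
    simp only [Nat.cast_zero, mul_zero, zero_mul, zero_add, add_zero]
    exact (mul_le_mul_right h2 D).trans le_add_self
  | succ ℓ ih =>
    intro B hB r hr E hE
    set P := Measure.pi fun _ : Fin ℓ => π with hP
    set a : Ω → ℝ≥0∞ := mix r (fun z => B z 0) with ha
    have hcons : ∀ x : Ω, Measurable (fun y : Fin ℓ → Ω => (Fin.cons x y : Fin (ℓ + 1) → Ω)) :=
      fun x => measurable_cons.comp measurable_prodMk_left
    let Ex : Ω → Set (Fin ℓ → Ω) := fun x => {y | (Fin.cons x y : Fin (ℓ + 1) → Ω) ∈ E}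
    have hEx : ∀ x, MeasurableSet (Ex x) := fun x => hcons x hE
    let q : Ω → ℝ≥0∞ := fun x => P (Ex x)
    have hq1 : ∀ x, q x ≤ 1 := fun x => prob_le_one
    have hS : MeasurableSet {p : Ω × (Fin ℓ → Ω) | (Fin.cons p.1 p.2 : Fin (ℓ + 1) → Ω) ∈ E} :=
      measurable_cons hE
    have hqm : Measurable q := measurable_measure_prodMk_left hS
    have ham : Measurable a := measurable_mix r (fun z => hI _ (hB z 0))
    have ha1 : ∀ x, a x ≤ 1 := mix_le_one hr _
    have hm : (Measure.pi fun _ : Fin (ℓ + 1) => π) E = ∫⁻ x, q x ∂π := by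
      rw [← lintegral_indicator_one hE, lintegral_pi_succ π (measurable_one.indicator hE)]
      refine lintegral_congr (fun x => ?_)
      change _ = P (Ex x)
      rw [← lintegral_indicator_one (hEx x)]
      rfl
    have hbm : Measurable (boxMix r B) := measurable_boxMix r (fun z i => hI _ (hB z i))
    have hF : ∫⁻ y in E, nlog (boxMix r B y) ∂(Measure.pi fun _ : Fin (ℓ + 1) => π) =
        ∫⁻ x, ∫⁻ y in Ex x, nlog (boxMix r B (Fin.cons x y)) ∂P ∂π := by
      rw [← lintegral_indicator hE]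
      have := lintegral_pi_succ π ((measurable_nlog.comp hbm).indicator hE)
      simp only [Function.comp_def] at this
      rw [this]
      refine lintegral_congr (fun x => ?_)
      rw [← lintegral_indicator (hEx x)]
      rfl
    have hpt : ∀ x, q x * nlog (a x) + (C * ℓ * q x + D * (q x) ^ 2) ≤
        ∫⁻ y in Ex x, nlog (boxMix r B (Fin.cons x y)) ∂P + (C * η * ℓ + D * q x) := by
      intro x
      by_cases hax : a x = 0
      · have h0 : ∀ y : Fin ℓ → Ω, boxMix r B (Fin.cons x y) = 0 := by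
          intro y
          have h1 : ∀ z, r z * (B z 0).indicator (1 : Ω → ℝ≥0∞) x = 0 := by
            intro z
            exact (Finset.sum_eq_zero_iff.mp hax) z (Finset.mem_univ z)
          unfold boxMix
          refine Finset.sum_eq_zero (fun z _ => ?_)
          rw [Fin.prod_univ_succ, Fin.cons_zero, ← mul_assoc, h1 z, zero_mul]
        by_cases hqx : q x = 0
        · simp [hqx]
        · have : ∫⁻ y in Ex x, nlog (boxMix r B (Fin.cons x y)) ∂P = ⊤ := by
            simp only [h0, nlog_zero]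
            rw [setLIntegral_const]
            exact ENNReal.top_mul hqx
          rw [this, top_add]
          exact le_top
      · obtain ⟨r', hr', hbox⟩ := boxMix_cons r hr B x hax
        have hb' : ∀ y, boxMix r' (fun z i => B z i.succ) y ≤ 1 := boxMix_le_one hr' _
        have h1 : ∫⁻ y in Ex x, nlog (boxMix r B (Fin.cons x y)) ∂P =
            q x * nlog (a x) + ∫⁻ y in Ex x, nlog (boxMix r' (fun z i => B z i.succ) y) ∂P := by
          simp only [hbox]
          rw [lintegral_congr (fun y => nlog_mul (ha1 x) (hb' y)),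
            lintegral_add_left measurable_const, setLIntegral_const, mul_comm]
        have h2 := ih (fun z i => B z i.succ) (fun z i => hB z i.succ) r' hr' (Ex x) (hEx x)
        rw [h1, add_assoc]
        rw [add_assoc] at h2
        exact add_le_add_right h2 _
    have hint := lintegral_mono (μ := π) hpt
    have hqn : Measurable (fun x => q x * nlog (a x)) := hqm.mul (measurable_nlog.comp ham)
    rw [lintegral_add_left hqn, lintegral_add_left (hqm.const_mul _), lintegral_const_mul _ hqm,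
      lintegral_const_mul _ (hqm.pow_const 2), lintegral_add_right _ (by fun_prop),
      lintegral_add_left measurable_const, lintegral_const, lintegral_const_mul _ hqm,
      measure_univ, mul_one, ← hF] at hint
    have hc := hcond n r (fun z => B z 0) q (fun z => hB z 0) hr hqm hq1
    rw [hm]
    set m := ∫⁻ x, q x ∂π
    set Q := ∫⁻ x, (q x) ^ 2 ∂π
    set F := ∫⁻ y in E, nlog (boxMix r B y) ∂(Measure.pi fun _ : Fin (ℓ + 1) => π)
    have hQ : D * Q ≠ ⊤ := by
      refine ENNReal.mul_ne_top hD (ne_top_of_le_ne_top ENNReal.one_ne_top ?_)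
      calc Q ≤ ∫⁻ _, 1 ∂π := lintegral_mono (fun x => pow_le_one' (hq1 x) 2)
        _ = 1 := by simp
    have hkey : C * ((ℓ + 1 : ℕ) : ℝ≥0∞) * m + D * m ^ 2 + D * Q ≤
        F + C * η * ((ℓ + 1 : ℕ) : ℝ≥0∞) + D * m + D * Q := by
      calc C * ((ℓ + 1 : ℕ) : ℝ≥0∞) * m + D * m ^ 2 + D * Q
          = (C * m + D * m ^ 2) + (C * ℓ * m + D * Q) := by push_cast; ring
        _ ≤ (∫⁻ x, q x * nlog (a x) ∂π + C * η + D * Q) + (C * ℓ * m + D * Q) :=
            add_le_add_left hc _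
        _ = (∫⁻ x, q x * nlog (a x) ∂π + (C * ℓ * m + D * Q)) + (C * η + D * Q) := by ring
        _ ≤ (F + (C * η * ℓ + D * m)) + (C * η + D * Q) := add_le_add_left hint _
        _ = F + C * η * ((ℓ + 1 : ℕ) : ℝ≥0∞) + D * m + D * Q := by push_cast; ring
    exact (ENNReal.add_le_add_iff_right hQ).mp hkey

end Pool.Agent.Lib.MP_87c4bd_co
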