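import Pool.Agent.Lib.MP_87c4bd_co.Good
import Pool.Agent.Lib.MP_87c4bd_co.Hilbert

set_option autoImplicit false

open MeasureTheory Filter Topology Set
open scoped ENNReal

namespace Pool.Agent.Lib.MP_87c4bd_co

universe u

variable {Ω : Type u} [MeasurableSpace Ω]

/-- The indicators of the members of `I` in `L²`. -/
def gens (π : Measure Ω) (I : Set (Set Ω)) : Set (Lp ℝ 2 π) :=
  {f | ∃ J ∈ I, f =ᵐ[π] J.indicator (fun _ => (1 : ℝ))}

/-- Their closed convex hull. -/
def hull (π : Measure Ω) (I : Set (Set Ω)) : Set (Lp ℝ 2 π) :=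
  closure (convexHull ℝ (gens π I))

theorem isClosed_of_ae_limit {π : Measure Ω} {S : Set (Lp ℝ 2 π)}
    (h : ∀ (v : ℕ → Lp ℝ 2 π) (f : Lp ℝ 2 π), (∀ n, v n ∈ S) →
      (∀ᵐ x ∂π, Tendsto (fun n => v n x) atTop (𝓝 (f x))) → f ∈ S) : IsClosed S := by
  rw [← isSeqClosed_iff_isClosed]
  intro v f hv hf
  have h1 := tendstoInMeasure_of_tendsto_Lp hf
  obtain ⟨ns, _, hns⟩ := h1.exists_seq_tendsto_ae
  exact h (fun n => v (ns n)) f (fun n => hv _) hns

/-- The functions with values in `[0,1]`. -/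
def unitBox (π : Measure Ω) : Set (Lp ℝ 2 π) := {f | ∀ᵐ x ∂π, 0 ≤ f x ∧ f x ≤ 1}

theorem unitBox_closed (π : Measure Ω) : IsClosed (unitBox π) := by
  apply isClosed_of_ae_limit
  intro v f hv hf
  have h1 : ∀ᵐ x ∂π, ∀ n, 0 ≤ v n x ∧ v n x ≤ 1 := ae_all_iff.mpr hv
  filter_upwards [h1, hf] with x hx hfx
  exact ⟨ge_of_tendsto' hfx (fun n => (hx n).1), le_of_tendsto' hfx (fun n => (hx n).2)⟩

theorem unitBox_convex (π : Measure Ω) : Convex ℝ (unitBox π) := by
  intro f hf g hg α β hα hβ hαβ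
  filter_upwards [hf, hg, Lp.coeFn_add (α • f) (β • g), Lp.coeFn_smul α f, Lp.coeFn_smul β g]
    with x h1 h2 h3 h4 h5
  rw [h3, Pi.add_apply, h4, h5, Pi.smul_apply, Pi.smul_apply, smul_eq_mul, smul_eq_mul]
  constructor
  · exact add_nonneg (mul_nonneg hα h1.1) (mul_nonneg hβ h2.1)
  · nlinarith [mul_le_mul_of_nonneg_left h1.2 hα, mul_le_mul_of_nonneg_left h2.2 hβ]

theorem gens_subset (π : Measure Ω) (I : Set (Set Ω)) : gens π I ⊆ unitBox π := by
  rintro f ⟨J, _, hf⟩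
  filter_upwards [hf] with x hx
  rw [hx]
  by_cases h : x ∈ J
  · simp [h]
  · simp [h]

theorem hull_subset (π : Measure Ω) (I : Set (Set Ω)) : hull π I ⊆ unitBox π :=
  closure_minimal (convexHull_min (gens_subset π I) (unitBox_convex π)) (unitBox_closed π)

/-- The members of the hull whose logarithmic cost on `D` is at most `C`. -/
def cheap (π : Measure Ω) (I : Set (Set Ω)) (D : Set Ω) (C : ℝ≥0∞) : Set (Lp ℝ 2 π) :=
  {f | f ∈ hull π I ∧ ∫⁻ x in D, nlog (ENNReal.ofReal (f x)) ∂π ≤ C}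

theorem cheap_convex (π : Measure Ω) (I : Set (Set Ω)) (D : Set Ω) (C : ℝ≥0∞) :
    Convex ℝ (cheap π I D C) := by
  intro f hf g hg α β hα hβ hαβ
  have hconv : Convex ℝ (hull π I) := (convex_convexHull ℝ _).closure
  refine ⟨hconv hf.1 hg.1 hα hβ hαβ, ?_⟩
  have hb : ∀ᵐ x ∂(π.restrict D), nlog (ENNReal.ofReal ((α • f + β • g : Lp ℝ 2 π) x)) ≤
      ENNReal.ofReal α * nlog (ENNReal.ofReal (f x)) +
        ENNReal.ofReal β * nlog (ENNReal.ofReal (g x)) := by
    apply ae_restrict_of_ae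
    filter_upwards [hull_subset π I hf.1, hull_subset π I hg.1, Lp.coeFn_add (α • f) (β • g),
      Lp.coeFn_smul α f, Lp.coeFn_smul β g] with x h1 h2 h3 h4 h5
    rw [h3, Pi.add_apply, h4, h5, Pi.smul_apply, Pi.smul_apply, smul_eq_mul, smul_eq_mul]
    exact nlog_convex h1.1 h1.2 h2.1 h2.2 hα hβ hαβ
  have hfm : AEMeasurable (fun x => nlog (ENNReal.ofReal (f x))) (π.restrict D) :=
    (measurable_nlog.comp_aemeasurable
      ((Lp.aestronglyMeasurable f).aemeasurable.ennreal_ofReal)).restrict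
  calc _ ≤ ∫⁻ x in D, (ENNReal.ofReal α * nlog (ENNReal.ofReal (f x)) +
        ENNReal.ofReal β * nlog (ENNReal.ofReal (g x))) ∂π := lintegral_mono_ae hb
    _ = ENNReal.ofReal α * ∫⁻ x in D, nlog (ENNReal.ofReal (f x)) ∂π +
        ENNReal.ofReal β * ∫⁻ x in D, nlog (ENNReal.ofReal (g x)) ∂π := by
        rw [lintegral_add_left' (hfm.const_mul _), lintegral_const_mul' _ _ ENNReal.ofReal_ne_top,
          lintegral_const_mul' _ _ ENNReal.ofReal_ne_top]
    _ ≤ ENNReal.ofReal α * C + ENNReal.ofReal β * C :=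
        add_le_add (mul_le_mul_right hf.2 _) (mul_le_mul_right hg.2 _)
    _ = C := by
        rw [← add_mul, ← ENNReal.ofReal_add hα hβ, hαβ, ENNReal.ofReal_one, one_mul]

theorem cheap_closed (π : Measure Ω) (I : Set (Set Ω)) (D : Set Ω) (C : ℝ≥0∞) :
    IsClosed (cheap π I D C) := by
  have h1 : IsClosed {f : Lp ℝ 2 π | ∫⁻ x in D, nlog (ENNReal.ofReal (f x)) ∂π ≤ C} := by
    apply isClosed_of_ae_limit
    intro v f hv hf
    have h2 : ∀ᵐ x ∂(π.restrict D), nlog (ENNReal.ofReal (f x)) =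
        liminf (fun n => nlog (ENNReal.ofReal (v n x))) atTop := by
      apply ae_restrict_of_ae
      filter_upwards [hf] with x hx
      have : Tendsto (fun n => nlog (ENNReal.ofReal (v n x))) atTop
          (𝓝 (nlog (ENNReal.ofReal (f x)))) :=
        (continuous_nlog.tendsto _).comp ((ENNReal.continuous_ofReal.tendsto _).comp hx)
      exact this.liminf_eq.symm
    have hfm : ∀ n, AEMeasurable (fun x => nlog (ENNReal.ofReal (v n x))) (π.restrict D) := fun n =>
      (measurable_nlog.comp_aemeasurable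
        ((Lp.aestronglyMeasurable (v n)).aemeasurable.ennreal_ofReal)).restrict
    calc ∫⁻ x in D, nlog (ENNReal.ofReal (f x)) ∂π
        = ∫⁻ x in D, liminf (fun n => nlog (ENNReal.ofReal (v n x))) atTop ∂π :=
          lintegral_congr_ae h2
      _ ≤ liminf (fun n => ∫⁻ x in D, nlog (ENNReal.ofReal (v n x)) ∂π) atTop :=
          lintegral_liminf_le' hfm
      _ ≤ C := by
          refine liminf_le_of_le (by isBoundedDefault) ?_
          intro b hb
          obtain ⟨n, hn⟩ := hb.exists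
          exact hn.trans (hv n)
  exact isClosed_closure.inter h1

theorem mix_mem (π : Measure Ω) [IsProbabilityMeasure π] {I : Set (Set Ω)}
    (hI : ∀ J ∈ I, MeasurableSet J) {n : ℕ} {r : Fin n → ℝ≥0∞} {J : Fin n → Set Ω}
    (hJ : ∀ z, J z ∈ I) (hr : ∑ z, r z = 1) :
    ∃ f ∈ convexHull ℝ (gens π I), f =ᵐ[π] fun x => (mix r J x).toReal := by
  have hrt : ∀ z, r z ≠ ⊤ := by
    intro z
    refine ne_top_of_le_ne_top ENNReal.one_ne_top ?_
    rw [← hr]
    exact Finset.single_le_sum (f := r) (fun _ _ => zero_le) (Finset.mem_univ z)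
  let h : Fin n → Lp ℝ 2 π := fun z =>
    indicatorConstLp 2 (hI _ (hJ z)) (measure_ne_top π _) (1 : ℝ)
  refine ⟨∑ z, (r z).toReal • h z, ?_, ?_⟩
  · refine (convex_convexHull ℝ _).sum_mem (fun z _ => ENNReal.toReal_nonneg) ?_ ?_
    · rw [← ENNReal.toReal_sum (fun z _ => hrt z), hr, ENNReal.toReal_one]
    · intro z _
      exact subset_convexHull ℝ _ ⟨J z, hJ z, indicatorConstLp_coeFn⟩
  · have h1 : ∀ᵐ x ∂π, ∀ z, ((r z).toReal • h z : Lp ℝ 2 π) x =
        (r z).toReal * (J z).indicator (fun _ => (1 : ℝ)) x := by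
      refine ae_all_iff.mpr (fun z => ?_)
      filter_upwards [Lp.coeFn_smul (r z).toReal (h z),
        (indicatorConstLp_coeFn : h z =ᵐ[π] (J z).indicator fun _ => (1 : ℝ))] with x h2 h3
      rw [h2, Pi.smul_apply, h3, smul_eq_mul]
    filter_upwards [Lp.coeFn_fun_finsetSum Finset.univ (fun z => (r z).toReal • h z), h1]
      with x h2 h3
    rw [h2, mix, ENNReal.toReal_sum]
    · refine Finset.sum_congr rfl (fun z _ => ?_)
      rw [h3 z, ENNReal.toReal_mul]
      congr 1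
      by_cases hx : x ∈ J z
      · simp [hx]
      · simp [hx]
    · intro z _
      exact ENNReal.mul_ne_top (hrt z) (ne_top_of_le_ne_top ENNReal.one_ne_top
        (indicator_one_le _ _))

theorem unitBox_norm (π : Measure Ω) [IsProbabilityMeasure π] {f : Lp ℝ 2 π}
    (hf : f ∈ unitBox π) : ‖f‖ ≤ 1 := by
  have := Lp.norm_le_of_ae_bound (f := f) (C := 1) zero_le_one (by
    filter_upwards [hf] with x hx
    rw [Real.norm_eq_abs, abs_of_nonneg hx.1]
    exact hx.2)
  have h1 : measureUnivNNReal π = 1 := by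
    simp [measureUnivNNReal]
  simpa [h1] using this

/-- A member of the closed convex hull of small logarithmic cost. -/
theorem exists_limit (π : Measure Ω) [IsProbabilityMeasure π] {I : Set (Set Ω)}
    (hI : ∀ J ∈ I, MeasurableSet J) {C' : ℝ≥0∞}
    (hgood : ∀ ε : ℝ≥0∞, ε ≠ 0 → ∃ (n : ℕ) (r : Fin n → ℝ≥0∞) (J : Fin n → Set Ω) (G : Set Ω),
      (∀ z, J z ∈ I) ∧ ∑ z, r z = 1 ∧ MeasurableSet G ∧ π Gᶜ ≤ ε ∧
        ∫⁻ x in G, nlog (mix r J x) ∂π ≤ C') :
    ∃ f ∈ hull π I, ∫⁻ x, nlog (ENNReal.ofReal (f x)) ∂π ≤ C' := by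
  have hg := fun k : ℕ => hgood ((2 : ℝ≥0∞)⁻¹ ^ k) (pow_ne_zero _ (by simp))
  choose n r J G hJ hr hGm hG hcost using hg
  let D : ℕ → Set Ω := fun k => ⋂ j ∈ Ici k, G j
  have hDm : ∀ k, MeasurableSet (D k) := fun k =>
    MeasurableSet.biInter (to_countable _) (fun j _ => hGm j)
  have hDmono : Monotone D := by
    intro a b hab
    exact biInter_subset_biInter_left (Ici_subset_Ici.mpr hab)
  have hDG : ∀ k, D k ⊆ G k := fun k => biInter_subset_of_mem (mem_Ici.mpr le_rfl)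
  have hK : ∀ k, ∃ x ∈ cheap π I (D k) C', ‖x‖ ≤ 1 := by
    intro k
    obtain ⟨f, hf, hfe⟩ := mix_mem π hI (hJ k) (hr k)
    have hfh : f ∈ hull π I := subset_closure hf
    refine ⟨f, ⟨hfh, ?_⟩, unitBox_norm π (hull_subset π I hfh)⟩
    calc ∫⁻ x in D k, nlog (ENNReal.ofReal (f x)) ∂π
        ≤ ∫⁻ x in G k, nlog (ENNReal.ofReal (f x)) ∂π := lintegral_mono_set (hDG k)
      _ = ∫⁻ x in G k, nlog (mix (r k) (J k) x) ∂π := by
          refine lintegral_congr_ae (ae_restrict_of_ae ?_)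
          filter_upwards [hfe] with x hx
          rw [hx, ENNReal.ofReal_toReal]
          exact ne_top_of_le_ne_top ENNReal.one_ne_top (mix_le_one (hr k) _ x)
      _ ≤ C' := hcost k
  obtain ⟨f, hf⟩ := nested_nonempty (fun k => cheap π I (D k) C')
    (by
      intro a b hab f hf
      exact ⟨hf.1, (lintegral_mono_set (hDmono hab)).trans hf.2⟩)
    (fun k => cheap_convex π I (D k) C') (fun k => cheap_closed π I (D k) C') 1 hK
  rw [mem_iInter] at hf
  refine ⟨f, (hf 0).1, ?_⟩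
  -- the union of the `D k` has full measure
  have hfull : π (⋃ k, D k)ᶜ = 0 := by
    have h1 : ∀ k, π (⋃ k, D k)ᶜ ≤ 2 * (2 : ℝ≥0∞)⁻¹ ^ k := by
      intro k
      calc π (⋃ k, D k)ᶜ ≤ π (D k)ᶜ := measure_mono (compl_subset_compl.mpr (subset_iUnion D k))
        _ ≤ π (⋃ j, (G (k + j))ᶜ) := by
            refine measure_mono ?_
            intro x hx
            simp only [D, mem_compl_iff, mem_iInter, mem_Ici, not_forall] at hx
            obtain ⟨j, hj, hxj⟩ := hx
            refine mem_iUnion.mpr ⟨j - k, ?_⟩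
            rw [Nat.add_sub_cancel' hj]
            exact hxj
        _ ≤ ∑' j, π (G (k + j))ᶜ := measure_iUnion_le _
        _ ≤ ∑' j, (2 : ℝ≥0∞)⁻¹ ^ (k + j) := ENNReal.tsum_le_tsum (fun j => hG (k + j))
        _ = 2 * (2 : ℝ≥0∞)⁻¹ ^ k := by
            simp only [pow_add]
            rw [ENNReal.tsum_mul_left, ENNReal.tsum_geometric, ENNReal.one_sub_inv_two, inv_inv,
              mul_comm]
    have h2 : Tendsto (fun k : ℕ => 2 * (2 : ℝ≥0∞)⁻¹ ^ k) atTop (𝓝 (2 * 0)) := by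
      refine ENNReal.Tendsto.const_mul ?_ (Or.inr (by norm_num))
      exact ENNReal.tendsto_pow_atTop_nhds_zero_of_lt_one (by simp)
    rw [mul_zero] at h2
    exact le_antisymm (ge_of_tendsto' h2 h1) zero_le
  have h3 : ∫⁻ x, nlog (ENNReal.ofReal (f x)) ∂π =
      ∫⁻ x in ⋃ k, D k, nlog (ENNReal.ofReal (f x)) ∂π := by
    rw [← lintegral_add_compl _ (MeasurableSet.iUnion hDm), setLIntegral_measure_zero _ _ hfull,
      add_zero]
  rw [h3, setLIntegral_iUnion_of_directed _ (hDmono.directed_le)]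
  exact iSup_le (fun k => (hf k).2)

end Pool.Agent.Lib.MP_87c4bd_co
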