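import Pool.Agent.Lib.MP_87c4bd_co.Induct

set_option autoImplicit false

open MeasureTheory Filter Topology Set
open scoped ENNReal

namespace Pool.Agent.Lib.MP_87c4bd_co

universe u

variable {Ω : Type u} [MeasurableSpace Ω]

theorem rate_bound (π : Measure Ω) [IsProbabilityMeasure π] {I : Set (Set Ω)}
    (hI : ∀ J ∈ I, MeasurableSet J) {C D η : ℝ≥0∞} (hD : D ≠ ⊤)
    (hcond : Cond π I C D η) {lam : ℝ} (h1 : lam < 1) {ℓ : ℕ} (hℓ : ℓ ≠ 0) :
    C ≤ rate I π lam ℓ + C * η / ENNReal.ofReal (1 - lam) + D / ℓ := by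
  have hℓ0 : (ℓ : ℝ≥0∞) ≠ 0 := by exact_mod_cast hℓ
  have hℓt : (ℓ : ℝ≥0∞) ≠ ⊤ := ENNReal.natCast_ne_top ℓ
  have hlam : ENNReal.ofReal (1 - lam) ≠ 0 := by
    rw [Ne, ENNReal.ofReal_eq_zero]; linarith
  -- it suffices to bound by every admissible number of boxes
  by_cases hne : ∃ n : ℕ, boxNumber I π lam ℓ = (n : ℝ≥0∞) ∧
      ∃ B : Fin n → Fin ℓ → Set Ω, (∀ z i, B z i ∈ I) ∧
        ENNReal.ofReal (1 - lam) ≤ (Measure.pi fun _ : Fin ℓ => π) (⋃ z, Set.pi Set.univ (B z))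
  · obtain ⟨n, hn, B, hB, hE⟩ := hne
    set E := ⋃ z, Set.pi Set.univ (B z) with hEdef
    have hEm : MeasurableSet E :=
      MeasurableSet.iUnion (fun z => MeasurableSet.univ_pi (fun i => hI _ (hB z i)))
    set m := (Measure.pi fun _ : Fin ℓ => π) E with hm
    have hm0 : m ≠ 0 := fun h => hlam (le_antisymm (h ▸ hE) (zero_le))
    have hmt : m ≠ ⊤ := measure_ne_top _ _
    have hn0 : n ≠ 0 := by
      rintro rfl
      apply hm0
      rw [hm, hEdef]
      simp
    have hn0' : (n : ℝ≥0∞) ≠ 0 := by exact_mod_cast hn0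
    have hnt : (n : ℝ≥0∞) ≠ ⊤ := ENNReal.natCast_ne_top n
    have hr : ∑ _z : Fin n, (n : ℝ≥0∞)⁻¹ = 1 := by
      rw [Finset.sum_const, Finset.card_univ, Fintype.card_fin, nsmul_eq_mul,
        ENNReal.mul_inv_cancel hn0' hnt]
    have hind := induct π hI hD hcond ℓ B hB (fun _ => (n : ℝ≥0∞)⁻¹) hr E hEm
    have hF : ∫⁻ y in E, nlog (boxMix (fun _ => (n : ℝ≥0∞)⁻¹) B y) ∂(Measure.pi fun _ : Fin ℓ => π) ≤
        m * (ENNReal.log (n : ℝ≥0∞)).toENNReal := by
      calc _ ≤ ∫⁻ y in E, (ENNReal.log (n : ℝ≥0∞)).toENNReal ∂(Measure.pi fun _ : Fin ℓ => π) := by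
            refine setLIntegral_mono measurable_const (fun y hy => ?_)
            rw [← nlog_inv]
            apply nlog_anti
            obtain ⟨z, hz⟩ := mem_iUnion.mp hy
            have h2 : (n : ℝ≥0∞)⁻¹ = (n : ℝ≥0∞)⁻¹ * ∏ i, (B z i).indicator (1 : Ω → ℝ≥0∞) (y i) := by
              rw [Finset.prod_eq_one, mul_one]
              intro i _
              exact indicator_of_mem (hz i (mem_univ i)) _
            exact h2.le.trans (Finset.single_le_sum
              (f := fun z => (n : ℝ≥0∞)⁻¹ * ∏ i, (B z i).indicator (1 : Ω → ℝ≥0∞) (y i))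
              (fun _ _ => zero_le) (Finset.mem_univ z))
        _ = m * (ENNReal.log (n : ℝ≥0∞)).toENNReal := by
            rw [setLIntegral_const, mul_comm]
    set L := (ENNReal.log (n : ℝ≥0∞)).toENNReal with hL
    have h3 : C * ℓ * m ≤ m * L + C * η * ℓ + D * m :=
      (le_self_add.trans hind).trans (by gcongr)
    have h4 : C ≤ (m * L + C * η * ℓ + D * m) / (ℓ * m) := by
      rw [ENNReal.le_div_iff_mul_le]
      · calc C * (ℓ * m) = C * ℓ * m := by ring
          _ ≤ _ := h3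
      · left; exact mul_ne_zero hℓ0 hm0
      · left; exact ENNReal.mul_ne_top hℓt hmt
    refine h4.trans ?_
    rw [ENNReal.add_div, ENNReal.add_div]
    have e1 : m * L / (ℓ * m) = L / ℓ := by
      rw [mul_comm m L]
      exact ENNReal.mul_div_mul_right _ _ hm0 hmt
    have e2 : C * η * ℓ / (ℓ * m) = C * η / m := by
      rw [mul_comm (ℓ : ℝ≥0∞) m]
      exact ENNReal.mul_div_mul_right _ _ hℓ0 hℓt
    have e3 : D * m / (ℓ * m) = D / ℓ := ENNReal.mul_div_mul_right _ _ hm0 hmt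
    rw [e1, e2, e3, rate, hn]
    gcongr
  · have htop : boxNumber I π lam ℓ = ⊤ := by
      by_contra hnt
      apply hne
      -- the infimum over natural numbers is attained
      have hex : ∃ n : ℕ, ∃ B : Fin n → Fin ℓ → Set Ω, (∀ z i, B z i ∈ I) ∧
          ENNReal.ofReal (1 - lam) ≤
            (Measure.pi fun _ : Fin ℓ => π) (⋃ z, Set.pi Set.univ (B z)) := by
        by_contra hcon
        push Not at hcon
        apply hnt
        unfold boxNumber
        refine iInf_eq_top.mpr (fun n => iInf_eq_top.mpr (fun h => ?_))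
        obtain ⟨B, hB, hE⟩ := h
        exact absurd hE (not_le.mpr (hcon n B hB))
      classical
      refine ⟨Nat.find hex, ?_, Nat.find_spec hex⟩
      apply le_antisymm
      · exact iInf₂_le (Nat.find hex) (Nat.find_spec hex)
      · refine le_iInf₂ (fun n hn => ?_)
        exact_mod_cast Nat.find_min' hex hn
    rw [rate, htop, ENNReal.log_top, EReal.toENNReal_top, ENNReal.top_div_of_ne_top hℓt, top_add,
      top_add]
    exact le_top

/-- If the lower covering entropy is below `C (1 - η/(1-λ))`, the single-letter inequality fails. -/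
theorem not_cond (π : Measure Ω) [IsProbabilityMeasure π] {I : Set (Set Ω)}
    (hI : ∀ J ∈ I, MeasurableSet J) {lam : ℝ} (h1 : lam < 1) {c C : ℝ≥0∞}
    (hc : lowerH I π lam < c) (hC : c < C) (hCt : C ≠ ⊤) :
    ∃ η : ℝ≥0∞, η ≠ 0 ∧ η ≠ ⊤ ∧ ∀ D : ℝ≥0∞, D ≠ ⊤ → ¬ Cond π I C D η := by
  have hlam : ENNReal.ofReal (1 - lam) ≠ 0 := by
    rw [Ne, ENNReal.ofReal_eq_zero]; linarith
  have hlamt : ENNReal.ofReal (1 - lam) ≠ ⊤ := ENNReal.ofReal_ne_top
  have hC0 : C ≠ 0 := (lt_of_le_of_lt (zero_le) hC).ne'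
  have hct : c ≠ ⊤ := (hC.trans_le le_top).ne
  -- choose `η` with `c + C η / (1 - λ) < C`
  obtain ⟨d, hd1, hd2⟩ := exists_between hC
  have hdt : d ≠ ⊤ := (hd2.trans_le le_top).ne
  have hpos : d - c ≠ 0 := (tsub_pos_of_lt hd1).ne'
  refine ⟨(d - c) * ENNReal.ofReal (1 - lam) / C, ?_, ?_, ?_⟩
  · rw [Ne, ENNReal.div_eq_zero_iff]
    push Not
    exact ⟨mul_ne_zero hpos hlam, hCt⟩
  · exact ENNReal.div_ne_top (ENNReal.mul_ne_top (ne_top_of_le_ne_top hdt tsub_le_self) hlamt) hC0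
  · intro D hD hcond
    have hfreq : ∃ᶠ ℓ in atTop, rate I π lam ℓ < c := frequently_lt_of_liminf_lt (by isBoundedDefault) hc
    have e1 : C * ((d - c) * ENNReal.ofReal (1 - lam) / C) / ENNReal.ofReal (1 - lam) = d - c := by
      rw [ENNReal.mul_div_cancel hC0 hCt, ENNReal.mul_div_cancel_right hlam hlamt]
    have hbd : ∃ᶠ ℓ : ℕ in atTop, C ≤ d + D / ℓ := by
      refine (hfreq.and_eventually (eventually_ne_atTop 0)).mono ?_
      rintro ℓ ⟨h2, h3⟩
      have := rate_bound π hI hD hcond h1 h3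
      rw [e1] at this
      refine this.trans ?_
      refine add_le_add_left ?_ _
      calc rate I π lam ℓ + (d - c) ≤ c + (d - c) := add_le_add_left h2.le _
        _ = d := add_tsub_cancel_of_le hd1.le
    have hlim : Tendsto (fun ℓ : ℕ => d + D / (ℓ : ℝ≥0∞)) atTop (𝓝 (d + 0)) := by
      refine Tendsto.const_add d ?_
      have := ENNReal.Tendsto.const_mul (a := D) ENNReal.tendsto_inv_nat_nhds_zero (Or.inr hD)
      simpa [div_eq_mul_inv] using this
    rw [add_zero] at hlim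
    have hev := hlim.eventually (gt_mem_nhds hd2)
    obtain ⟨ℓ, h4, h5⟩ := (hbd.and_eventually hev).exists
    exact absurd h5 (not_lt.mpr h4)

end Pool.Agent.Lib.MP_87c4bd_co
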