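import Pool.Agent.Lib.MP_87c4bd_co.Limit

set_option autoImplicit false

open MeasureTheory Filter Topology Set
open scoped ENNReal

namespace Pool.Agent.Lib.MP_87c4bd_co

universe u

variable {Ω : Type u} [MeasurableSpace Ω]

/-- The countable convex combination of indicators given by a discrete distribution on `I`. -/
noncomputable def bP {I : Set (Set Ω)} (p : PMF I) (x : Ω) : ℝ≥0∞ :=
  ∑' J : I, p J * (J : Set Ω).indicator 1 x

omit [MeasurableSpace Ω] in
theorem bP_le_one {I : Set (Set Ω)} (p : PMF I) (x : Ω) : bP p x ≤ 1 := by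
  rw [← p.tsum_coe]
  refine ENNReal.tsum_le_tsum (fun J => ?_)
  calc p J * (J : Set Ω).indicator 1 x ≤ p J * 1 := mul_le_mul_right (indicator_one_le _ _) _
    _ = p J := mul_one _

theorem measurable_bP {I : Set (Set Ω)} (hI : ∀ J ∈ I, MeasurableSet J) (p : PMF I) :
    Measurable (bP p) := by
  have h1 : bP p = fun x => ∑' J : p.support, p J * ((J : I) : Set Ω).indicator 1 x := by
    funext x
    unfold bP
    symm
    apply tsum_subtype_eq_of_support_subset (f := fun J : I => p J * (J : Set Ω).indicator 1 x)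
    intro J hJ
    rw [Function.mem_support] at hJ
    rw [PMF.mem_support_iff]
    exact left_ne_zero_of_mul hJ
  rw [h1]
  have : Countable p.support := p.support_countable.to_subtype
  exact Measurable.ennreal_tsum (fun J =>
    (measurable_one.indicator (hI _ (J : I).2)).const_mul _)

omit [MeasurableSpace Ω] in
theorem bP_bind {I : Set (Set Ω)} {κ : Type*} (w : PMF κ) (p : κ → PMF I) (x : Ω) :
    bP (w.bind p) x = ∑' k, w k * bP (p k) x := by
  unfold bP
  simp only [PMF.bind_apply]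
  simp_rw [← ENNReal.tsum_mul_right]
  rw [ENNReal.tsum_comm]
  refine tsum_congr (fun k => ?_)
  rw [← ENNReal.tsum_mul_left]
  refine tsum_congr (fun J => ?_)
  ring

omit [MeasurableSpace Ω] in
theorem bP_pure {I : Set (Set Ω)} (J : I) (x : Ω) :
    bP (PMF.pure J) x = (J : Set Ω).indicator 1 x := by
  unfold bP
  rw [tsum_eq_single J]
  · simp
  · intro J' hJ'
    rw [PMF.pure_apply_of_ne _ _ hJ', zero_mul]

omit [MeasurableSpace Ω] in
/-- Two-point mixture. -/
theorem exists_two {I : Set (Set Ω)} (p q : PMF I) {α β : ℝ} (hα : 0 ≤ α) (hβ : 0 ≤ β)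
    (hαβ : α + β = 1) :
    ∃ s : PMF I, ∀ x, bP s x = ENNReal.ofReal α * bP p x + ENNReal.ofReal β * bP q x := by
  let w : PMF Bool := ⟨fun b => if b then ENNReal.ofReal α else ENNReal.ofReal β, by
    have h : ∑ b : Bool, (if b then ENNReal.ofReal α else ENNReal.ofReal β) = 1 := by
      simp [← ENNReal.ofReal_add hα hβ, hαβ]
    rw [← h]
    exact hasSum_fintype _⟩
  refine ⟨w.bind (fun b => if b then p else q), fun x => ?_⟩
  rw [bP_bind, tsum_bool]
  have h1 : w true = ENNReal.ofReal α := rfl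
  have h2 : w false = ENNReal.ofReal β := rfl
  rw [h1, h2]
  simp [add_comm]

theorem hull_bP (π : Measure Ω) {I : Set (Set Ω)} :
    ∀ f ∈ convexHull ℝ (gens π I), ∃ p : PMF I, f =ᵐ[π] fun x => (bP p x).toReal := by
  have hsub : convexHull ℝ (gens π I) ⊆
      {f | ∃ p : PMF I, f =ᵐ[π] fun x => (bP p x).toReal} := by
    refine convexHull_min ?_ ?_
    · rintro f ⟨J, hJ, hf⟩
      refine ⟨PMF.pure ⟨J, hJ⟩, ?_⟩
      filter_upwards [hf] with x hx
      rw [hx, bP_pure]
      by_cases h : x ∈ J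
      · simp [h]
      · simp [h]
    · rintro f ⟨p, hp⟩ g ⟨q, hq⟩ α β hα hβ hαβ
      obtain ⟨s, hs⟩ := exists_two p q hα hβ hαβ
      refine ⟨s, ?_⟩
      filter_upwards [hp, hq, Lp.coeFn_add (α • f) (β • g), Lp.coeFn_smul α f, Lp.coeFn_smul β g]
        with x h1 h2 h3 h4 h5
      have t1 : ENNReal.ofReal α * bP p x ≠ ⊤ := ENNReal.mul_ne_top ENNReal.ofReal_ne_top
        (ne_top_of_le_ne_top ENNReal.one_ne_top (bP_le_one p x))
      have t2 : ENNReal.ofReal β * bP q x ≠ ⊤ := ENNReal.mul_ne_top ENNReal.ofReal_ne_top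
        (ne_top_of_le_ne_top ENNReal.one_ne_top (bP_le_one q x))
      rw [h3, Pi.add_apply, h4, h5, Pi.smul_apply, Pi.smul_apply, smul_eq_mul, smul_eq_mul, hs,
        ENNReal.toReal_add t1 t2, ENNReal.toReal_mul, ENNReal.toReal_mul,
        ENNReal.toReal_ofReal hα, ENNReal.toReal_ofReal hβ, h1, h2]
  exact fun f hf => hsub hf

end Pool.Agent.Lib.MP_87c4bd_co
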