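import Pool.Agent.Lib.MP_87c4bd_co.Defs

set_option autoImplicit false

open MeasureTheory Filter Topology Set
open scoped ENNReal

namespace Pool.Agent.Lib.MP_87c4bd_co

theorem nlog_zero : nlog 0 = ⊤ := by simp [nlog]

theorem nlog_one : nlog 1 = 0 := by simp [nlog]

theorem nlog_anti {s t : ℝ≥0∞} (h : s ≤ t) : nlog t ≤ nlog s :=
  EReal.toENNReal_le_toENNReal (EReal.neg_le_neg_iff.mpr (ENNReal.log_monotone h))

theorem continuous_nlog : Continuous nlog :=
  EReal.continuous_toENNReal.comp (continuous_neg.comp ENNReal.continuous_log)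

theorem measurable_nlog : Measurable nlog := continuous_nlog.measurable

theorem coe_nlog {t : ℝ≥0∞} (h : t ≤ 1) : (nlog t : EReal) = -(ENNReal.log t) := by
  rw [nlog, EReal.coe_toENNReal]
  rw [EReal.neg_nonneg]
  exact ENNReal.log_le_zero_iff.mpr h

theorem nlog_eq_top_iff {t : ℝ≥0∞} : nlog t = ⊤ ↔ t = 0 := by
  rw [nlog, EReal.toENNReal_eq_top_iff, EReal.neg_eq_top_iff, ENNReal.log_eq_bot_iff]

theorem nlog_mul {s t : ℝ≥0∞} (hs : s ≤ 1) (ht : t ≤ 1) : nlog (s * t) = nlog s + nlog t := by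
  rw [← EReal.coe_ennreal_eq_coe_ennreal_iff, EReal.coe_ennreal_add, coe_nlog hs, coe_nlog ht,
    coe_nlog (mul_le_one' hs ht), ENNReal.log_mul_add, EReal.neg_add]
  · rfl
  · right; exact (ENNReal.log_lt_top_iff.mpr (ht.trans_lt ENNReal.one_lt_top)).ne
  · left; exact (ENNReal.log_lt_top_iff.mpr (hs.trans_lt ENNReal.one_lt_top)).ne

/-- Real-number form. -/
theorem nlog_ofReal {t : ℝ} (h0 : 0 < t) : nlog (ENNReal.ofReal t) = ENNReal.ofReal (-Real.log t) := by
  rw [nlog, ENNReal.log_ofReal_of_pos h0, ← EReal.coe_neg, EReal.real_coe_toENNReal]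

theorem nlog_convex {x y α β : ℝ} (hx0 : 0 ≤ x) (hx1 : x ≤ 1) (hy0 : 0 ≤ y) (hy1 : y ≤ 1)
    (hα : 0 ≤ α) (hβ : 0 ≤ β) (hαβ : α + β = 1) :
    nlog (ENNReal.ofReal (α * x + β * y)) ≤
      ENNReal.ofReal α * nlog (ENNReal.ofReal x) + ENNReal.ofReal β * nlog (ENNReal.ofReal y) := by
  rcases hα.eq_or_lt with rfl | hα
  · have : β = 1 := by linarith
    subst this
    simp
  rcases hβ.eq_or_lt with rfl | hβ
  · have : α = 1 := by linarith
    subst this
    simp
  rcases hx0.eq_or_lt with rfl | hx0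
  · have : ENNReal.ofReal α * nlog (ENNReal.ofReal 0) = ⊤ := by
      rw [ENNReal.ofReal_zero, nlog_zero, ENNReal.mul_top]
      simpa using hα
    rw [this, top_add]
    exact le_top
  rcases hy0.eq_or_lt with rfl | hy0
  · have : ENNReal.ofReal β * nlog (ENNReal.ofReal 0) = ⊤ := by
      rw [ENNReal.ofReal_zero, nlog_zero, ENNReal.mul_top]
      simpa using hβ
    rw [this, add_top]
    exact le_top
  have h1 := strictConcaveOn_log_Ioi.concaveOn.2 (mem_Ioi.mpr hx0) (mem_Ioi.mpr hy0) hα.le hβ.le hαβ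
  simp only [smul_eq_mul] at h1
  rw [nlog_ofReal hx0, nlog_ofReal hy0, nlog_ofReal (by positivity), ← ENNReal.ofReal_mul hα.le,
    ← ENNReal.ofReal_mul hβ.le, ← ENNReal.ofReal_add]
  · apply ENNReal.ofReal_le_ofReal
    linarith
  · exact mul_nonneg hα.le (by have := Real.log_nonpos hx0.le hx1; linarith)
  · exact mul_nonneg hβ.le (by have := Real.log_nonpos hy0.le hy1; linarith)

/-- `-log (1/N) = log N`. -/
theorem nlog_inv {t : ℝ≥0∞} : nlog t⁻¹ = (ENNReal.log t).toENNReal := by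
  rw [nlog, ENNReal.log_inv, neg_neg]

end Pool.Agent.Lib.MP_87c4bd_co
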