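import Pool.Agent.Lib.MP_87c4bd_co.Greedy

set_option autoImplicit false

open MeasureTheory Filter Topology Set
open scoped ENNReal

namespace Pool.Agent.Lib.MP_87c4bd_co

universe u

variable {Ω : Type u} [MeasurableSpace Ω]

theorem nlog_prod {κ : Type*} (s : Finset κ) (t : κ → ℝ≥0∞) (ht : ∀ i, t i ≤ 1) :
    nlog (∏ i ∈ s, t i) = ∑ i ∈ s, nlog (t i) := by
  classical
  induction s using Finset.induction_on with
  | empty => simp [nlog_one]
  | insert i s hi ih =>
    rw [Finset.prod_insert hi, Finset.sum_insert hi,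
      nlog_mul (ht i) (Finset.prod_le_one' (fun j _ => ht j)), ih]

theorem le_of_nlog_le {s t : ℝ≥0∞} (hs : s ≤ 1) (ht : t ≤ 1) (h : nlog s ≤ nlog t) : t ≤ s := by
  have h1 : (nlog s : EReal) ≤ nlog t := EReal.coe_ennreal_le_coe_ennreal_iff.mpr h
  rw [coe_nlog hs, coe_nlog ht, EReal.neg_le_neg_iff] at h1
  exact ENNReal.log_strictMono.le_iff_le.mp h1

/-- The known direction: the upper covering entropy is at most `φ(a)` for every `a ∈ VP_full`. -/
theorem upperH_le_phi (π : Measure Ω) [IsProbabilityMeasure π] {I : Set (Set Ω)}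
    (hI : ∀ J ∈ I, MeasurableSet J) {lam : ℝ} (h0 : 0 < lam) {a : Ω → ℝ≥0∞}
    (ha : a ∈ VPfull I π) : upperH I π lam ≤ phi π a := by
  obtain ⟨b, hb, hb1, hab, havg⟩ := exists_avg π ha
  have hphi : phi π a = ∫⁻ x, nlog (b x) ∂π := by
    refine lintegral_congr_ae ?_
    filter_upwards [hab] with x hx
    rw [hx]
  rw [hphi]
  refine le_of_forall_gt_imp_ge_of_dense (fun E hE => ?_)
  obtain ⟨c, hc1, hc2⟩ := exists_between hE
  have hct : c ≠ ⊤ := (hc2.trans_le le_top).ne
  set cr : ℝ := c.toReal with hcr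
  have hcr0 : 0 ≤ cr := ENNReal.toReal_nonneg
  have hcof : ENNReal.ofReal cr = c := ENNReal.ofReal_toReal hct
  have hm : Measurable fun x => nlog (b x) := measurable_nlog.comp hb
  have hw := wlln π hm hc1 hct
  -- a constant
  obtain ⟨T, hT0, hT⟩ : ∃ T : ℝ, 0 < T ∧ Real.exp (-T) ≤ lam / 2 := by
    refine ⟨max 1 (-Real.log (lam / 2)), lt_max_of_lt_left one_pos, ?_⟩
    rw [← Real.le_log_iff_exp_le (by linarith)]
    have := le_max_right 1 (-Real.log (lam / 2))
    linarith
  have hhalf : (0 : ℝ≥0∞) < ENNReal.ofReal (lam / 2) := by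
    rw [ENNReal.ofReal_pos]; linarith
  -- the limit of the additional term
  have hlim : Tendsto (fun ℓ : ℕ => c + ENNReal.ofReal (Real.log (T + 1)) / (ℓ : ℝ≥0∞)) atTop
      (𝓝 (c + 0)) := by
    refine Tendsto.const_add c ?_
    have := ENNReal.Tendsto.const_mul (a := ENNReal.ofReal (Real.log (T + 1)))
      ENNReal.tendsto_inv_nat_nhds_zero (Or.inr ENNReal.ofReal_ne_top)
    simpa [div_eq_mul_inv] using this
  rw [add_zero] at hlim
  refine limsup_le_of_le (by isBoundedDefault) ?_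
  filter_upwards [hw.eventually (gt_mem_nhds hhalf), hlim.eventually (gt_mem_nhds hc2),
    eventually_gt_atTop 0] with ℓ hℓ1 hℓ2 hℓ0
  have hℓ0' : (ℓ : ℝ≥0∞) ≠ 0 := by exact_mod_cast hℓ0.ne'
  have hℓt : (ℓ : ℝ≥0∞) ≠ ⊤ := ENNReal.natCast_ne_top ℓ
  refine le_trans ?_ hℓ2.le
  set S : Set (Fin ℓ → Ω) := {y | ∑ i, nlog (b (y i)) ≤ ℓ * c} with hS
  have hSm : MeasurableSet S :=
    measurableSet_le (Finset.measurable_fun_sum _ (fun i _ => hm.comp (measurable_pi_apply i)))
      measurable_const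
  set p : ℝ := Real.exp (-(ℓ * cr)) with hp
  have hp0 : 0 < p := Real.exp_pos _
  have hp1 : p ≤ 1 := by
    rw [hp, Real.exp_le_one_iff]
    have : 0 ≤ (ℓ : ℝ) * cr := by positivity
    linarith
  have hp1' : ENNReal.ofReal p ≤ 1 := ENNReal.ofReal_le_one.mpr hp1
  have hnlp : nlog (ENNReal.ofReal p) = ℓ * c := by
    rw [nlog_ofReal hp0, hp, Real.log_exp, neg_neg, ENNReal.ofReal_mul (by positivity),
      ENNReal.ofReal_natCast, hcof]
  have hpS : ∀ y ∈ S, ENNReal.ofReal p ≤ ∏ i, b (y i) := by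
    intro y hy
    refine le_of_nlog_le (Finset.prod_le_one' (fun i _ => hb1 _)) hp1' ?_
    rw [nlog_prod _ _ (fun i => hb1 _), hnlp]
    exact hy
  set M : ℕ := ⌈T / p⌉₊ with hM
  obtain ⟨B, hB, hBle⟩ := exists_cover π hI hb hb1 havg hSm hpS M
  -- the uncovered part is small
  have hsmall : (1 - ENNReal.ofReal p) ^ M ≤ ENNReal.ofReal (lam / 2) := by
    have e1 : 1 - ENNReal.ofReal p = ENNReal.ofReal (1 - p) := by
      rw [ENNReal.ofReal_sub _ hp0.le, ENNReal.ofReal_one]
    rw [e1, ← ENNReal.ofReal_pow (by linarith)]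
    refine ENNReal.ofReal_le_ofReal ?_
    calc (1 - p) ^ M ≤ Real.exp (-p) ^ M := by
          refine pow_le_pow_left₀ (by linarith) ?_ M
          have := Real.add_one_le_exp (-p)
          linarith
      _ = Real.exp (-(p * M)) := by
          rw [← Real.exp_nat_mul]
          congr 1
          ring
      _ ≤ Real.exp (-T) := by
          rw [Real.exp_le_exp, neg_le_neg_iff]
          have h2 : T / p ≤ M := Nat.le_ceil _
          rw [div_le_iff₀ hp0] at h2
          linarith
      _ ≤ lam / 2 := hT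
  have hboxm : MeasurableSet (⋃ z, Set.pi univ (B z)) :=
    MeasurableSet.iUnion (fun z => MeasurableSet.univ_pi (fun i => hI _ (hB z i)))
  have hcov : ENNReal.ofReal (1 - lam) ≤
      (Measure.pi fun _ : Fin ℓ => π) (⋃ z, Set.pi Set.univ (B z)) := by
    have h2 : (Measure.pi fun _ : Fin ℓ => π) (⋃ z, Set.pi univ (B z))ᶜ ≤ ENNReal.ofReal lam := by
      calc (Measure.pi fun _ : Fin ℓ => π) (⋃ z, Set.pi univ (B z))ᶜ
          ≤ (Measure.pi fun _ : Fin ℓ => π) ((S \ ⋃ z, Set.pi univ (B z)) ∪ Sᶜ) := by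
            refine measure_mono ?_
            intro y hy
            by_cases hyS : y ∈ S
            · exact Or.inl ⟨hyS, hy⟩
            · exact Or.inr hyS
        _ ≤ (Measure.pi fun _ : Fin ℓ => π) (S \ ⋃ z, Set.pi univ (B z)) +
              (Measure.pi fun _ : Fin ℓ => π) Sᶜ := measure_union_le _ _
        _ ≤ ENNReal.ofReal (lam / 2) + ENNReal.ofReal (lam / 2) :=
            add_le_add (hBle.trans hsmall) hℓ1.le
        _ = ENNReal.ofReal lam := by
            rw [← ENNReal.ofReal_add (by linarith) (by linarith), add_halves]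
    rw [ENNReal.ofReal_sub _ h0.le, ENNReal.ofReal_one, tsub_le_iff_right]
    calc (1 : ℝ≥0∞) = (Measure.pi fun _ : Fin ℓ => π) univ := measure_univ.symm
      _ = (Measure.pi fun _ : Fin ℓ => π) (⋃ z, Set.pi univ (B z)) +
            (Measure.pi fun _ : Fin ℓ => π) (⋃ z, Set.pi univ (B z))ᶜ :=
          (measure_add_measure_compl hboxm).symm
      _ ≤ _ := add_le_add_right h2 _
  have hbox : boxNumber I π lam ℓ ≤ (M : ℝ≥0∞) := iInf₂_le M ⟨B, hB, hcov⟩
  have hMle : (M : ℝ≥0∞) ≤ ENNReal.ofReal ((T + 1) / p) := by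
    rw [← ENNReal.ofReal_natCast]
    refine ENNReal.ofReal_le_ofReal ?_
    have h2 : (M : ℝ) < T / p + 1 := Nat.ceil_lt_add_one (by positivity)
    have h3 : 1 ≤ 1 / p := by
      rw [le_div_iff₀ hp0]; linarith
    calc (M : ℝ) ≤ T / p + 1 := h2.le
      _ ≤ T / p + 1 / p := by linarith
      _ = (T + 1) / p := by ring
  have hlog : (ENNReal.log (boxNumber I π lam ℓ)).toENNReal ≤
      ENNReal.ofReal (Real.log (T + 1)) + ℓ * c := by
    calc (ENNReal.log (boxNumber I π lam ℓ)).toENNReal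
        ≤ (ENNReal.log (ENNReal.ofReal ((T + 1) / p))).toENNReal :=
          EReal.toENNReal_le_toENNReal (ENNReal.log_monotone (hbox.trans hMle))
      _ = ENNReal.ofReal (Real.log ((T + 1) / p)) := by
          rw [ENNReal.log_ofReal_of_pos (by positivity), EReal.real_coe_toENNReal]
      _ = ENNReal.ofReal (Real.log (T + 1) + ℓ * cr) := by
          rw [Real.log_div (by positivity) hp0.ne', hp, Real.log_exp]
          congr 1
          ring
      _ ≤ ENNReal.ofReal (Real.log (T + 1)) + ENNReal.ofReal (ℓ * cr) := ENNReal.ofReal_add_le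
      _ = ENNReal.ofReal (Real.log (T + 1)) + ℓ * c := by
          rw [ENNReal.ofReal_mul (by positivity), ENNReal.ofReal_natCast, hcof]
  calc rate I π lam ℓ = (ENNReal.log (boxNumber I π lam ℓ)).toENNReal / ℓ := rfl
    _ ≤ (ENNReal.ofReal (Real.log (T + 1)) + ℓ * c) / ℓ := ENNReal.div_le_div_right hlog _
    _ = c + ENNReal.ofReal (Real.log (T + 1)) / ℓ := by
        rw [ENNReal.add_div, mul_comm (ℓ : ℝ≥0∞) c, ENNReal.mul_div_cancel_right hℓ0' hℓt, add_comm]

theorem lowerH_le_upperH (π : Measure Ω) (I : Set (Set Ω)) (lam : ℝ) :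
    lowerH I π lam ≤ upperH I π lam := liminf_le_limsup

theorem upperH_le_Hfull (π : Measure Ω) [IsProbabilityMeasure π] {I : Set (Set Ω)}
    (hI : ∀ J ∈ I, MeasurableSet J) {lam : ℝ} (h0 : 0 < lam) :
    upperH I π lam ≤ Hfull I π := le_iInf₂ (fun _ ha => upperH_le_phi π hI h0 ha)

end Pool.Agent.Lib.MP_87c4bd_co
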